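import Pool.Agent.Lib_helper3.MD.Defs

/-!
# Mutual information of a deterministic finite code
-/

set_option autoImplicit false

open MeasureTheory Filter Topology InformationTheory
open scoped ENNReal

namespace H3.MD

variable {A B F : Type*} [MeasurableSpace A] [MeasurableSpace B] [Fintype F] [MeasurableSpace F]
  [MeasurableSingletonClass F]

/-- Gibbs' inequality for a finite probability vector -/
theorem gibbs (p q : F → ℝ) (hp : ∀ y, 0 ≤ p y) (hq : ∀ y, 0 < q y) (hp1 : ∑ y, p y = 1)
    (hq1 : ∑ y, q y ≤ 1) : ∑ y, p y * (-Real.log (p y)) ≤ ∑ y, p y * (-Real.log (q y)) := by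
  have h : ∀ y, p y * (-Real.log (p y)) - p y * (-Real.log (q y)) ≤ q y - p y := by
    intro y
    rcases (hp y).eq_or_lt with h0 | h0
    · rw [← h0]; simp [(hq y).le]
    · have h1 : Real.log (q y / p y) ≤ q y / p y - 1 := Real.log_le_sub_one_of_pos (div_pos (hq y) h0)
      rw [Real.log_div (hq y).ne' h0.ne'] at h1
      have h2 := mul_le_mul_of_nonneg_left h1 h0.le
      have h3 : p y * (q y / p y - 1) = q y - p y := by field_simp
      rw [h3] at h2
      linarith
  have h1 := Finset.sum_le_sum (s := Finset.univ) (fun y _ => h y)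
  rw [Finset.sum_sub_distrib, Finset.sum_sub_distrib, hp1] at h1
  linarith

open scoped Classical in
/-- joint law of `a` and `Y a` is absolutely continuous with an explicit density -/
theorem map_graph_eq (μ : Measure A) [IsProbabilityMeasure μ] {Y : A → F} (hY : Measurable Y) :
    μ.map (fun a => (a, Y a)) = (μ.prod (μ.map Y)).withDensity
      (fun ay => if Y ay.1 = ay.2 then ((μ.map Y) {ay.2})⁻¹ else 0) := by
  classical
  have hm : Measurable fun a => (a, Y a) := measurable_id.prodMk hY
  set ν := μ.map Y with hν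
  have : IsProbabilityMeasure ν := Measure.isProbabilityMeasure_map hY.aemeasurable
  have hfm : Measurable fun ay : A × F => if Y ay.1 = ay.2 then (ν {ay.2})⁻¹ else 0 := by
    refine Measurable.ite ?_ ?_ measurable_const
    · exact measurableSet_eq_fun (hY.comp measurable_fst) measurable_snd
    · exact (measurable_of_finite (fun y : F => (ν {y})⁻¹)).comp measurable_snd
  refine Measure.ext fun E hE => ?_
  rw [Measure.map_apply hm hE, withDensity_apply _ hE, ← lintegral_indicator hE,
    lintegral_prod _ ((hfm.indicator hE).aemeasurable)]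
  have hnull : ∀ᵐ a ∂μ, ν {Y a} ≠ 0 := by
    rw [ae_iff]
    simp only [ne_eq, not_not]
    have h1 : {a | ν {Y a} = 0} ⊆ ⋃ y ∈ {y : F | ν {y} = 0}, Y ⁻¹' {y} := by
      intro a ha
      exact Set.mem_biUnion (show Y a ∈ {y : F | ν {y} = 0} from ha) rfl
    refine measure_mono_null h1 ?_
    rw [measure_biUnion_null_iff (Set.to_countable _)]
    intro y hy
    have : ν {y} = μ (Y ⁻¹' {y}) := Measure.map_apply hY (measurableSet_singleton y)
    rw [← this]; exact hy
  have hin : ∀ᵐ a ∂μ, ∫⁻ y, E.indicator (fun ay : A × F => if Y ay.1 = ay.2 then (ν {ay.2})⁻¹ else 0)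
      (a, y) ∂ν = E.indicator 1 (a, Y a) := by
    filter_upwards [hnull] with a ha
    rw [lintegral_fintype]
    rw [Finset.sum_eq_single (Y a)]
    · by_cases hE' : (a, Y a) ∈ E
      · rw [Set.indicator_of_mem hE', Set.indicator_of_mem hE', if_pos rfl, Pi.one_apply]
        exact ENNReal.inv_mul_cancel ha (measure_ne_top _ _)
      · rw [Set.indicator_of_notMem hE', Set.indicator_of_notMem hE', zero_mul]
    · intro y _ hy
      by_cases hE' : (a, y) ∈ E
      · rw [Set.indicator_of_mem hE', if_neg (fun h => hy h.symm), zero_mul]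
      · rw [Set.indicator_of_notMem hE', zero_mul]
    · intro h; exact absurd (Finset.mem_univ _) h
  rw [lintegral_congr_ae hin]
  have h2 : (fun a => E.indicator (1 : A × F → ℝ≥0∞) (a, Y a)) =
      ((fun a => (a, Y a)) ⁻¹' E).indicator 1 := by
    funext a; rfl
  rw [h2, lintegral_indicator_one (hm hE)]

/-- mutual information of `a` and `Y a`, for a finite-valued `Y`, is at most the cost of any code -/
theorem klDiv_graph_le (μ : Measure A) [IsProbabilityMeasure μ] {Y : A → F} (hY : Measurable Y)
    {q : F → ℝ} (hq : ∀ y, 0 < q y) (hq1 : ∑ y, q y ≤ 1) :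
    klDiv (μ.map (fun a => (a, Y a))) (μ.prod (μ.map Y)) ≤
      ENNReal.ofReal (∫ a, -Real.log (q (Y a)) ∂μ) := by
  classical
  have hm : Measurable fun a => (a, Y a) := measurable_id.prodMk hY
  set ν := μ.map Y with hν
  have : IsProbabilityMeasure ν := Measure.isProbabilityMeasure_map hY.aemeasurable
  set π0 := μ.map (fun a => (a, Y a)) with hπ0
  have : IsProbabilityMeasure π0 := Measure.isProbabilityMeasure_map hm.aemeasurable
  set f : A × F → ℝ≥0∞ := fun ay => if Y ay.1 = ay.2 then (ν {ay.2})⁻¹ else 0 with hf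
  have hfm : Measurable f := by
    refine Measurable.ite ?_ ?_ measurable_const
    · exact measurableSet_eq_fun (hY.comp measurable_fst) measurable_snd
    · exact (measurable_of_finite (fun y : F => (ν {y})⁻¹)).comp measurable_snd
  have hwd : π0 = (μ.prod ν).withDensity f := map_graph_eq μ hY
  have hac : π0 ≪ μ.prod ν := by rw [hwd]; exact withDensity_absolutelyContinuous _ _
  have hrn : π0.rnDeriv (μ.prod ν) =ᵐ[π0] f := by
    apply hac.ae_eq
    rw [hwd]
    exact Measure.rnDeriv_withDensity _ hfm
  have hllr : llr π0 (μ.prod ν) =ᵐ[π0] fun ay => Real.log (f ay).toReal := by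
    filter_upwards [hrn] with ay h
    simp only [llr_def]
    rw [h]
  have hgm : Measurable fun ay : A × F => Real.log (f ay).toReal :=
    Real.measurable_log.comp hfm.ennreal_toReal
  have hcomp : ∀ a, Real.log (f (a, Y a)).toReal = -Real.log (ν.real {Y a}) := by
    intro a
    simp only [hf, if_true]
    rw [ENNReal.toReal_inv, Real.log_inv]
    rfl
  have hint0 : Integrable (fun a => -Real.log (ν.real {Y a})) μ := by
    have : (fun a => -Real.log (ν.real {Y a})) = (fun y => -Real.log (ν.real {y})) ∘ Y := rfl
    rw [this]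
    exact (Integrable.of_finite (μ := ν)).comp_measurable hY
  have hint : Integrable (llr π0 (μ.prod ν)) π0 := by
    refine (integrable_congr hllr).2 ?_
    rw [hπ0, integrable_map_measure hgm.aestronglyMeasurable hm.aemeasurable]
    refine hint0.congr (ae_of_all _ fun a => ?_)
    exact (hcomp a).symm
  rw [klDiv_of_ac_of_integrable hac hint]
  simp only [probReal_univ, add_sub_cancel_right]
  apply ENNReal.ofReal_le_ofReal
  rw [integral_congr_ae hllr, hπ0, integral_map hm.aemeasurable hgm.aestronglyMeasurable]
  simp only [hcomp]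
  have e1 : ∀ g : F → ℝ, ∫ a, g (Y a) ∂μ = ∑ y, ν.real {y} * g y := by
    intro g
    have h1 : ∫ a, g (Y a) ∂μ = ∫ y, g y ∂ν := by
      rw [hν, integral_map hY.aemeasurable (measurable_of_finite g).aestronglyMeasurable]
    rw [h1, integral_fintype Integrable.of_finite]
    simp only [smul_eq_mul]
  rw [e1 (fun y => -Real.log (ν.real {y})), e1 (fun y => -Real.log (q y))]
  refine gibbs _ _ (fun y => measureReal_nonneg) hq ?_ hq1
  have h2 := e1 (fun _ => (1 : ℝ))
  simp only [mul_one, integral_const, probReal_univ, smul_eq_mul] at h2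
  exact h2.symm

theorem mutualInfo_code_le (μ : Measure A) [IsProbabilityMeasure μ] {Y : A → F} (hY : Measurable Y)
    (G : F → B) {q : F → ℝ} (hq : ∀ y, 0 < q y) (hq1 : ∑ y, q y ≤ 1) :
    mutualInfo (μ.map (fun a => (a, G (Y a)))) ≤ ENNReal.ofReal (∫ a, -Real.log (q (Y a)) ∂μ) := by
  have hm : Measurable fun a => (a, Y a) := measurable_id.prodMk hY
  have hG : Measurable G := measurable_of_finite G
  have hmG : Measurable fun a => (a, G (Y a)) := measurable_id.prodMk (hG.comp hY)
  have : IsProbabilityMeasure (μ.map Y) := Measure.isProbabilityMeasure_map hY.aemeasurable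
  have : IsProbabilityMeasure (μ.map (fun a => (a, Y a))) :=
    Measure.isProbabilityMeasure_map hm.aemeasurable
  have hpm : Measurable (Prod.map (id : A → A) G) := measurable_id.prodMap hG
  have e1 : μ.map (fun a => (a, G (Y a))) = (μ.map (fun a => (a, Y a))).map (Prod.map id G) := by
    rw [Measure.map_map hpm hm]; rfl
  have e2 : (μ.map (fun a => (a, G (Y a)))).fst = μ := by
    rw [Measure.fst, Measure.map_map measurable_fst hmG]
    exact Measure.map_id
  have e3 : (μ.map (fun a => (a, G (Y a)))).snd = (μ.map Y).map G := by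
    rw [Measure.snd, Measure.map_map measurable_snd hmG, Measure.map_map hG hY]
    rfl
  unfold mutualInfo
  rw [e2, e3, e1]
  have e4 : μ.prod ((μ.map Y).map G) = (μ.prod (μ.map Y)).map (Prod.map id G) := by
    rw [← Measure.map_prod_map _ _ measurable_id hG, Measure.map_id]
  rw [e4]
  exact (klDiv_map_le _ _ hpm).trans (klDiv_graph_le μ hY hq hq1)

end H3.MD
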