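import Pool.Agent.Lib_helper3.MD.Static
import Pool.Agent.Lib_helper3.MD.Info

/-!
# The global code and the bound for the rate distortion function
-/

set_option autoImplicit false

open Topology MeasureTheory Filter
open scoped ENNReal

namespace H3.MD

section

variable {X : Type*} {f : ℕ → X → ℝ} {bad : ℕ → ℕ → Set X} {J R : ℕ}

/-- names of blocks -/
abbrev BN (J R Q N : ℕ) : Type := (Fin Q → Nm J R) ⊕ (Fin N → Nm J R)

open scoped Classical in
/-- block code -/
noncomputable def blk (f : ℕ → X → ℝ) (bad : ℕ → ℕ → Set X) (J R Q N : ℕ) (T : X → X) (x : X) :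
    BN J R Q N :=
  if T^[Q] x = x then Sum.inl fun k => nm f bad J R (T^[(k : ℕ)] x)
  else Sum.inr fun k => nm f bad J R (T^[(k : ℕ)] x)

/-- weights of the block names -/
noncomputable def wB (J R Q N : ℕ) : BN J R Q N → ℝ :=
  Sum.elim (fun c => (1 / 2) * ∏ k, wC J R (c k)) (fun c => (1 / 2) * ∏ k, wC J R (c k))

theorem wB_pos {Q N : ℕ} (c : BN J R Q N) : 0 < wB J R Q N c := by
  rcases c with c | c
  · exact mul_pos (by norm_num) (Finset.prod_pos fun _ _ => wC_pos J R _)
  · exact mul_pos (by norm_num) (Finset.prod_pos fun _ _ => wC_pos J R _)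

theorem sum_wB {Q N : ℕ} : ∑ c, wB J R Q N c = 1 := by
  rw [Fintype.sum_sum_type]
  simp only [wB, Sum.elim_inl, Sum.elim_inr]
  rw [← Finset.mul_sum, ← Finset.mul_sum, ← Fintype.prod_sum, ← Fintype.prod_sum]
  simp only [sum_wC, Finset.prod_const_one]
  norm_num

/-- the decoder -/
noncomputable def dec (g : Nm J R → X) {Q N : ℕ} (hQ : 0 < Q) : BN J R Q N → (Fin N → X) :=
  Sum.elim (fun c k => g (c ⟨(k : ℕ) % Q, Nat.mod_lt _ hQ⟩)) (fun c k => g (c k))

theorem exists_rep (f : ℕ → X → ℝ) (bad : ℕ → ℕ → Set X) (J R : ℕ) [Nonempty X] :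
    ∃ g : Nm J R → X, ∀ x, nm f bad J R (g (nm f bad J R x)) = nm f bad J R x := by
  classical
  have h1 : ∀ c : Nm J R, ∃ y : X, (∃ x, nm f bad J R x = c) → nm f bad J R y = c := by
    intro c
    by_cases h : ∃ x, nm f bad J R x = c
    · obtain ⟨x, hx⟩ := h
      exact ⟨x, fun _ => hx⟩
    · exact ⟨Classical.arbitrary X, fun h' => absurd h' h⟩
  choose g hg using h1
  exact ⟨g, fun x => hg _ ⟨x, rfl⟩⟩

theorem dist_dec {g : Nm J R → X} {Q N : ℕ} (hQ : 0 < Q) {T : X → X} {d : X → X → ℝ} {δ : ℝ}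
    (hg : ∀ x, d x (g (nm f bad J R x)) ≤ δ) (x : X) (k : Fin N) :
    d (T^[(k : ℕ)] x) (dec g hQ (blk f bad J R Q N T x) k) ≤ δ := by
  classical
  unfold blk
  by_cases hx : T^[Q] x = x
  · rw [if_pos hx]
    show d (T^[(k : ℕ)] x) (g (nm f bad J R (T^[(k : ℕ) % Q] x))) ≤ δ
    have h1 : T^[(k : ℕ) % Q] x = T^[(k : ℕ)] x := by
      have h2 : Function.IsPeriodicPt T Q x := hx
      exact h2.iterate_mod_apply _
    rw [h1]
    exact hg _
  · rw [if_neg hx]
    exact hg _

/-- the cost of the block code -/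
theorem cost_blk {Q N : ℕ} {T : X → X} (x : X) :
    -Real.log (wB J R Q N (blk f bad J R Q N T x)) ≤
      Real.log 2 + Q * ((J + 1) * (Real.log (2 * (2 ^ J + 1)) + Real.log (2 * (R + 1)))) +
        N * ((J + 1) * Real.log (2 * (2 ^ J + 1))) +
        (∑ k ∈ Finset.range N, {x | T^[Q] x = x}ᶜ.indicator (fun _ => (cnt bad J (T^[k] x) : ℝ)) x) *
          Real.log (2 * (R + 1)) := by
  classical
  set L1 := Real.log (2 * ((2 : ℝ) ^ J + 1)) with hL1
  set L2 := Real.log (2 * ((R : ℝ) + 1)) with hL2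
  have hL1' : 0 ≤ L1 := by
    apply Real.log_nonneg
    have : (0 : ℝ) < 2 ^ J := by positivity
    linarith
  have hL2' : 0 ≤ L2 := by
    apply Real.log_nonneg
    have : (0 : ℝ) ≤ R := by positivity
    linarith
  have hlog2 : 0 ≤ Real.log 2 := Real.log_nonneg (by norm_num)
  have hcost : ∀ y : X, -Real.log (wC J R (nm f bad J R y)) ≤
    (J + 1) * L1 + cnt bad J y * L2 := fun y => cost_le J R y
  by_cases hx : T^[Q] x = x
  · have h1 : blk f bad J R Q N T x =
        Sum.inl fun k : Fin Q => nm f bad J R (T^[(k : ℕ)] x) := by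
      unfold blk; rw [if_pos hx]
    rw [h1]
    show -Real.log ((1 / 2) * ∏ k : Fin Q, wC J R (nm f bad J R (T^[(k : ℕ)] x))) ≤ _
    rw [Real.log_mul (by norm_num) (Finset.prod_pos fun _ _ => wC_pos J R _).ne',
      Real.log_prod (fun _ _ => (wC_pos J R _).ne'), one_div, Real.log_inv, neg_add, neg_neg,
      ← Finset.sum_neg_distrib]
    have h2 : ∑ k : Fin Q, -Real.log (wC J R (nm f bad J R (T^[(k : ℕ)] x))) ≤
        Q * ((J + 1) * (L1 + L2)) := by
      have h3 : ∀ k : Fin Q, -Real.log (wC J R (nm f bad J R (T^[(k : ℕ)] x))) ≤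
          (J + 1) * (L1 + L2) := by
        intro k
        refine (hcost _).trans ?_
        have h4 : (cnt bad J (T^[(k : ℕ)] x) : ℝ) ≤ J + 1 := by exact_mod_cast cnt_le bad J _
        have h5 := mul_le_mul_of_nonneg_right h4 hL2'
        linarith
      refine (Finset.sum_le_sum fun k _ => h3 k).trans ?_
      rw [Finset.sum_const, Finset.card_univ, Fintype.card_fin, nsmul_eq_mul]
    have h6 : 0 ≤ (N : ℝ) * ((J + 1) * L1) := by positivity
    have h7 : 0 ≤ (∑ k ∈ Finset.range N,
        {x | T^[Q] x = x}ᶜ.indicator (fun _ => (cnt bad J (T^[k] x) : ℝ)) x) * L2 := by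
      refine mul_nonneg (Finset.sum_nonneg fun k _ => ?_) hL2'
      exact Set.indicator_nonneg (fun _ _ => by positivity) _
    linarith
  · have h1 : blk f bad J R Q N T x =
        Sum.inr fun k : Fin N => nm f bad J R (T^[(k : ℕ)] x) := by
      unfold blk; rw [if_neg hx]
    rw [h1]
    show -Real.log ((1 / 2) * ∏ k : Fin N, wC J R (nm f bad J R (T^[(k : ℕ)] x))) ≤ _
    rw [Real.log_mul (by norm_num) (Finset.prod_pos fun _ _ => wC_pos J R _).ne',
      Real.log_prod (fun _ _ => (wC_pos J R _).ne'), one_div, Real.log_inv, neg_add, neg_neg,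
      ← Finset.sum_neg_distrib]
    have h2 : ∑ k : Fin N, -Real.log (wC J R (nm f bad J R (T^[(k : ℕ)] x))) ≤
        N * ((J + 1) * L1) + (∑ k ∈ Finset.range N,
        {x | T^[Q] x = x}ᶜ.indicator (fun _ => (cnt bad J (T^[k] x) : ℝ)) x) * L2 := by
      refine (Finset.sum_le_sum fun k _ => hcost _).trans ?_
      rw [Finset.sum_add_distrib, Finset.sum_const, Finset.card_univ, Fintype.card_fin, nsmul_eq_mul,
        ← Finset.sum_mul, Fin.sum_univ_eq_sum_range (fun k => (cnt bad J (T^[k] x) : ℝ)) N]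
      refine add_le_add le_rfl (mul_le_mul_of_nonneg_right (Finset.sum_le_sum fun k _ => ?_) hL2')
      rw [Set.indicator_of_mem (show x ∈ {x | T^[Q] x = x}ᶜ from hx)]
    have h6 : 0 ≤ (Q : ℝ) * ((J + 1) * (L1 + L2)) := by positivity
    linarith

end

section

variable {X : Type*} [MetricSpace X] [CompactSpace X] [MeasurableSpace X] [BorelSpace X]
  {f : ℕ → X → ℝ} {bad : ℕ → ℕ → Set X} {J R : ℕ}

omit [CompactSpace X] in
theorem measurableSet_blk (hc : ∀ j, Continuous (f j)) (hb : ∀ J j, IsClosed (bad J j))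
    {T : X → X} (hT : Continuous T) {Q N : ℕ} (c : BN J R Q N) :
    MeasurableSet (blk f bad J R Q N T ⁻¹' {c}) := by
  classical
  have hB : MeasurableSet {x | T^[Q] x = x} :=
    (isClosed_eq (hT.iterate Q) continuous_id).measurableSet
  have hm : ∀ (k : ℕ) (y : Nm J R), MeasurableSet {x | nm f bad J R (T^[k] x) = y} := fun k y =>
    (hT.iterate k).measurable (measurableSet_nm J R hc hb y)
  rcases c with c | c
  · have h1 : blk f bad J R Q N T ⁻¹' {Sum.inl c} =
        {x | T^[Q] x = x} ∩ ⋂ k : Fin Q, {x | nm f bad J R (T^[(k : ℕ)] x) = c k} := by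
      ext x
      unfold blk
      by_cases hx : T^[Q] x = x
      · simp [hx, funext_iff]
      · simp [hx]
    rw [h1]
    exact hB.inter (MeasurableSet.iInter fun k => hm _ _)
  · have h1 : blk f bad J R Q N T ⁻¹' {Sum.inr c} =
        {x | T^[Q] x = x}ᶜ ∩ ⋂ k : Fin N, {x | nm f bad J R (T^[(k : ℕ)] x) = c k} := by
      ext x
      unfold blk
      by_cases hx : T^[Q] x = x
      · simp [hx]
      · simp [hx, funext_iff]
    rw [h1]
    exact hB.compl.inter (MeasurableSet.iInter fun k => hm _ _)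

omit [CompactSpace X] [MeasurableSpace X] [BorelSpace X] in
/-- the bad set is invariant -/
theorem indicator_iterate (T : X ≃ₜ X) (Q k : ℕ) (F : X → ℝ) (x : X) :
    {x | T^[Q] x = x}ᶜ.indicator (fun _ => F (T^[k] x)) x =
      {x | T^[Q] x = x}ᶜ.indicator F (T^[k] x) := by
  classical
  have h1 : T^[Q] (T^[k] x) = T^[k] x ↔ T^[Q] x = x := by
    rw [← Function.iterate_add_apply, add_comm, Function.iterate_add_apply]
    exact (T.injective.iterate k).eq_iff
  by_cases hx : T^[Q] x = x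
  · rw [Set.indicator_of_notMem (by simpa using hx), Set.indicator_of_notMem]
    simpa using h1.2 hx
  · rw [Set.indicator_of_mem (show x ∈ {x | T^[Q] x = x}ᶜ from hx), Set.indicator_of_mem]
    exact fun h => hx (h1.1 h)

theorem rate_le_one (hc : ∀ j, Continuous (f j)) (h01 : ∀ j x, 0 ≤ f j x ∧ f j x ≤ 1)
    (hb : ∀ J j, IsClosed (bad J j))
    (hk : ∀ J j x, x ∉ bad J j → ∃ k : ℕ, k ≤ 2 ^ J ∧ f j x = k / 2 ^ J) (T : X ≃ₜ X)
    {μ : Measure X} [IsProbabilityMeasure μ] (hμ : MeasurePreserving T μ μ) (hR : 0 < R)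
    {ε : ℝ} (hε : 1 / R + 2 * (1 / 2) ^ ((J + 2) ^ 4) < ε) {Q : ℕ} (hQ : 0 < Q) {N : ℕ}
    (hN : 0 < N) :
    rate T (dd f) μ ε ≤ ENNReal.ofReal
      (((Real.log 2 + Q * ((J + 1) * (Real.log (2 * (2 ^ J + 1)) + Real.log (2 * (R + 1))))) / N +
        ((J + 1) * Real.log (2 * (2 ^ J + 1)) +
        (∫ x, {x | T^[Q] x = x}ᶜ.indicator (fun x => (cnt bad J x : ℝ)) x ∂μ) *
          Real.log (2 * (R + 1)))) / Real.log 2) := by
  classical
  have hne : Nonempty X := by
    by_contra h
    rw [not_nonempty_iff] at h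
    have h1 : μ Set.univ = 1 := measure_univ
    rw [Set.univ_eq_empty_iff.2 h, measure_empty] at h1
    exact zero_ne_one h1
  obtain ⟨g, hg⟩ := exists_rep f bad J R
  set δ : ℝ := 1 / R + 2 * (1 / 2) ^ ((J + 2) ^ 4) with hδ
  have hgd : ∀ x, dd f x (g (nm f bad J R x)) ≤ δ := by
    intro x
    exact dd_le_of h01 J (by positivity) (nm_close J R h01 hk hR (hg x).symm)
  let _ : MeasurableSpace (BN J R Q N) := ⊤
  set Y : X → BN J R Q N := blk f bad J R Q N T with hY
  have hYm : Measurable Y := measurable_to_countable' fun c => measurableSet_blk hc hb T.continuous c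
  set G : BN J R Q N → (Fin N → X) := dec g hQ with hG
  have hGm : Measurable G := measurable_of_finite G
  have hm : Measurable fun x => (x, G (Y x)) := measurable_id.prodMk (hGm.comp hYm)
  set π : Measure (X × (Fin N → X)) := μ.map fun x => (x, G (Y x)) with hπ
  have hπP : IsProbabilityMeasure π := Measure.isProbabilityMeasure_map hm.aemeasurable
  have hfst : π.fst = μ := by
    rw [Measure.fst, hπ, Measure.map_map measurable_fst hm]
    exact Measure.map_id
  have hN' : (0 : ℝ) < N := by exact_mod_cast hN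
  have hdm : Measurable fun p : X × (Fin N → X) =>
      (1 / (N : ℝ)) * ∑ k : Fin N, dd f (T^[(k : ℕ)] p.1) (p.2 k) := by
    refine measurable_const.mul (Finset.measurable_sum _ fun k _ => ?_)
    have h1 : Measurable fun p : X × X => dd f p.1 p.2 := (continuous_dd h01 hc).measurable
    exact h1.comp (((T.continuous.iterate _).measurable.comp measurable_fst).prodMk
      ((measurable_pi_apply k).comp measurable_snd))
  have hdist : ∫ p, (1 / (N : ℝ)) * ∑ k : Fin N, dd f (T^[(k : ℕ)] p.1) (p.2 k) ∂π < ε := by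
    refine lt_of_le_of_lt ?_ hε
    rw [hπ, integral_map hm.aemeasurable hdm.aestronglyMeasurable]
    have h1 : ∀ x, (1 / (N : ℝ)) * ∑ k : Fin N, dd f (T^[(k : ℕ)] x) (G (Y x) k) ≤ δ := by
      intro x
      have h2 : ∑ k : Fin N, dd f (T^[(k : ℕ)] x) (G (Y x) k) ≤ N * δ := by
        refine (Finset.sum_le_sum fun k _ => dist_dec hQ hgd x k).trans ?_
        rw [Finset.sum_const, Finset.card_univ, Fintype.card_fin, nsmul_eq_mul]
      calc (1 / (N : ℝ)) * ∑ k : Fin N, dd f (T^[(k : ℕ)] x) (G (Y x) k)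
          ≤ (1 / (N : ℝ)) * (N * δ) := mul_le_mul_of_nonneg_left h2 (by positivity)
        _ = δ := by field_simp
    have h3 : ∫ x, (1 / (N : ℝ)) * ∑ k : Fin N, dd f (T^[(k : ℕ)] x) (G (Y x) k) ∂μ ≤
        ∫ _, δ ∂μ := by
      refine integral_mono_of_nonneg (ae_of_all _ fun x => ?_) (integrable_const _)
        (ae_of_all _ fun x => h1 x)
      refine mul_nonneg (by positivity) (Finset.sum_nonneg fun k _ => ?_)
      exact tsum_nonneg fun j => term_nonneg j _ _
    refine h3.trans ?_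
    simp
  have hrate : rate T (dd f) μ ε ≤ mutualInfo π / ENNReal.ofReal (Real.log 2) / N := by
    unfold rate
    exact iInf_le_of_le N (iInf_le_of_le hN (iInf_le_of_le π (iInf_le_of_le hπP
      (iInf_le_of_le hfst (iInf_le_of_le hdist le_rfl)))))
  refine hrate.trans ?_
  have hinfo : mutualInfo π ≤ ENNReal.ofReal (∫ x, -Real.log (wB J R Q N (Y x)) ∂μ) :=
    mutualInfo_code_le μ hYm G wB_pos sum_wB.le
  have hlog2 : 0 < Real.log 2 := Real.log_pos (by norm_num)
  set L1 := Real.log (2 * ((2 : ℝ) ^ J + 1)) with hL1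
  set L2 := Real.log (2 * ((R : ℝ) + 1)) with hL2
  set h : X → ℝ := {x | T^[Q] x = x}ᶜ.indicator (fun x => (cnt bad J x : ℝ)) with hh
  have hBm : MeasurableSet ({x | T^[Q] x = x}ᶜ) :=
    (isClosed_eq (T.continuous.iterate Q) continuous_id).measurableSet.compl
  have hhm : Measurable h := (measurable_cnt J hb).indicator hBm
  have hh0 : ∀ x, 0 ≤ h x := fun x => Set.indicator_nonneg (fun _ _ => by positivity) _
  have hhb : ∀ x, h x ≤ J + 1 := by
    intro x
    have h1 : (cnt bad J x : ℝ) ≤ (J : ℝ) + 1 := by exact_mod_cast cnt_le bad J x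
    by_cases hx : x ∈ {x | T^[Q] x = x}ᶜ
    · rw [hh, Set.indicator_of_mem hx]; exact h1
    · rw [hh, Set.indicator_of_notMem hx]; positivity
  have hhi : Integrable h μ := by
    refine Integrable.of_bound hhm.aestronglyMeasurable (J + 1) (ae_of_all _ fun x => ?_)
    rw [Real.norm_eq_abs, abs_of_nonneg (hh0 x)]
    exact hhb x
  have hhk : ∀ k, Integrable (fun x => h (T^[k] x)) μ := fun k =>
    (hμ.iterate k).integrable_comp_of_integrable hhi
  have hhke : ∀ k, ∫ x, h (T^[k] x) ∂μ = ∫ x, h x ∂μ := by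
    intro k
    have h1 := integral_map (hμ.iterate k).measurable.aemeasurable
      (f := h) (μ := μ) hhm.aestronglyMeasurable
    rw [(hμ.iterate k).map_eq] at h1
    exact h1.symm
  have hcost : ∫ x, -Real.log (wB J R Q N (Y x)) ∂μ ≤
      (Real.log 2 + Q * ((J + 1) * (L1 + L2))) + N * ((J + 1) * L1 + (∫ x, h x ∂μ) * L2) := by
    have h1 : ∀ x, -Real.log (wB J R Q N (Y x)) ≤
        (Real.log 2 + Q * ((J + 1) * (L1 + L2)) + N * ((J + 1) * L1)) +
          (∑ k ∈ Finset.range N, h (T^[k] x)) * L2 := by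
      intro x
      have h2 := cost_blk (f := f) (bad := bad) (J := J) (R := R) (Q := Q) (N := N) (T := T) x
      have h3 : ∀ k, {x | T^[Q] x = x}ᶜ.indicator (fun _ => (cnt bad J (T^[k] x) : ℝ)) x =
          h (T^[k] x) := fun k => indicator_iterate T Q k (fun x => (cnt bad J x : ℝ)) x
      simp only [h3] at h2
      exact h2
    have h4 : Integrable (fun x => (Real.log 2 + Q * ((J + 1) * (L1 + L2)) + N * ((J + 1) * L1)) +
        (∑ k ∈ Finset.range N, h (T^[k] x)) * L2) μ :=
      (integrable_const _).add ((integrable_finsetSum _ fun k _ => hhk k).mul_const _)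
    have h5 : Integrable (fun x => -Real.log (wB J R Q N (Y x))) μ := by
      have : (fun x => -Real.log (wB J R Q N (Y x))) = (fun c => -Real.log (wB J R Q N c)) ∘ Y := rfl
      rw [this]
      have : IsProbabilityMeasure (μ.map Y) := Measure.isProbabilityMeasure_map hYm.aemeasurable
      exact (Integrable.of_finite (μ := μ.map Y)).comp_measurable hYm
    refine (integral_mono h5 h4 h1).trans ?_
    rw [integral_add (integrable_const _) ((integrable_finsetSum _ fun k _ => hhk k).mul_const _),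
      integral_mul_const, integral_finsetSum _ (fun k _ => hhk k)]
    simp only [hhke, integral_const, probReal_univ, smul_eq_mul, one_mul, Finset.sum_const,
      Finset.card_range, nsmul_eq_mul]
    apply le_of_eq
    ring
  have h6 : mutualInfo π ≤ ENNReal.ofReal
      ((Real.log 2 + Q * ((J + 1) * (L1 + L2))) + N * ((J + 1) * L1 + (∫ x, h x ∂μ) * L2)) :=
    hinfo.trans (ENNReal.ofReal_le_ofReal hcost)
  calc mutualInfo π / ENNReal.ofReal (Real.log 2) / N
      ≤ ENNReal.ofReal ((Real.log 2 + Q * ((J + 1) * (L1 + L2))) +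
          N * ((J + 1) * L1 + (∫ x, h x ∂μ) * L2)) / ENNReal.ofReal (Real.log 2) / N := by
        gcongr
    _ = ENNReal.ofReal (((Real.log 2 + Q * ((J + 1) * (L1 + L2))) / N +
        ((J + 1) * L1 + (∫ x, h x ∂μ) * L2)) / Real.log 2) := by
        rw [← ENNReal.ofReal_div_of_pos hlog2]
        have h7 : (N : ℝ≥0∞) = ENNReal.ofReal N := by rw [ENNReal.ofReal_natCast]
        rw [h7, ← ENNReal.ofReal_div_of_pos hN']
        congr 1
        field_simp

/-- the bound for the rate distortion function -/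
theorem rate_le (hc : ∀ j, Continuous (f j)) (h01 : ∀ j x, 0 ≤ f j x ∧ f j x ≤ 1)
    (hb : ∀ J j, IsClosed (bad J j))
    (hk : ∀ J j x, x ∉ bad J j → ∃ k : ℕ, k ≤ 2 ^ J ∧ f j x = k / 2 ^ J) (T : X ≃ₜ X)
    {μ : Measure X} [IsProbabilityMeasure μ] (hμ : MeasurePreserving T μ μ) (hR : 0 < R)
    {ε : ℝ} (hε : 1 / R + 2 * (1 / 2) ^ ((J + 2) ^ 4) < ε) {Q : ℕ} (hQ : 0 < Q) :
    rate T (dd f) μ ε ≤ ENNReal.ofReal
      (((J + 1) * Real.log (2 * (2 ^ J + 1)) +
        (∫ x, {x | T^[Q] x = x}ᶜ.indicator (fun x => (cnt bad J x : ℝ)) x ∂μ) *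
          Real.log (2 * (R + 1))) / Real.log 2) := by
  set A := Real.log 2 + Q * ((J + 1) * (Real.log (2 * (2 ^ J + 1)) + Real.log (2 * (R + 1)))) with hA
  set B := (J + 1) * Real.log (2 * (2 ^ J + 1)) +
        (∫ x, {x | T^[Q] x = x}ᶜ.indicator (fun x => (cnt bad J x : ℝ)) x ∂μ) *
          Real.log (2 * (R + 1)) with hB
  have h1 : Tendsto (fun N : ℕ => ENNReal.ofReal ((A / N + B) / Real.log 2)) atTop
      (𝓝 (ENNReal.ofReal ((0 + B) / Real.log 2))) := by
    refine ENNReal.tendsto_ofReal (Tendsto.div_const ?_ _)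
    exact (tendsto_const_div_atTop_nhds_zero_nat A).add_const B
  rw [zero_add] at h1
  refine ge_of_tendsto h1 ?_
  filter_upwards [eventually_gt_atTop 0] with N hN
  exact rate_le_one hc h01 hb hk T hμ hR hε hQ hN

end

end H3.MD
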