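import Pool.Agent.Lib_helper3.MD.Code

/-!
# Counting bad coordinates along orbits, and the rate distortion dimension
-/

set_option autoImplicit false

open Topology MeasureTheory Filter
open scoped ENNReal Nat

namespace H3.MD

section

variable {X : Type*} [MetricSpace X]
  {bad : ℕ → ℕ → Set X} {n : ℕ} {T : X → X}

/-- the counting hypothesis -/
def HCount (T : X → X) (bad : ℕ → ℕ → Set X) (n : ℕ) : Prop :=
  ∀ J, ∀ S : Finset (ℕ × ℕ), S.card = n + 1 → (∀ s ∈ S, s.1 ≤ J ∧ s.2 < J) → ∀ x,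
    (∀ s ∈ S, ∀ s' ∈ S, s.2 ≠ s'.2 → 1 / ((J : ℝ) + 1) ≤ dist (T^[s.2] x) (T^[s'.2] x)) →
      ∃ s ∈ S, T^[s.2] x ∉ bad J s.1

theorem sum_cnt_le (H : HCount T bad n) {M J : ℕ} (hMJ : M ≤ J) (x : X)
    (hx : ∀ k < M, ∀ k' < M, k ≠ k' → 1 / ((J : ℝ) + 1) ≤ dist (T^[k] x) (T^[k'] x)) :
    ∑ k ∈ Finset.range M, cnt bad J (T^[k] x) ≤ n := by
  classical
  set S0 : Finset (ℕ × ℕ) := ((Finset.range (J + 1)) ×ˢ (Finset.range M)).filter
    fun p => T^[p.2] x ∈ bad J p.1 with hS0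
  have hcard : S0.card = ∑ k ∈ Finset.range M, cnt bad J (T^[k] x) := by
    rw [hS0, Finset.card_filter, Finset.sum_product_right]
    refine Finset.sum_congr rfl fun k _ => ?_
    unfold cnt
    rw [Finset.card_filter]
  rw [← hcard]
  by_contra hcon
  obtain ⟨S, hSS, hS⟩ := Finset.exists_subset_card_eq (show n + 1 ≤ S0.card by omega)
  have hmem : ∀ s ∈ S, (s.1 < J + 1 ∧ s.2 < M) ∧ T^[s.2] x ∈ bad J s.1 := by
    intro s hs
    have := hSS hs
    rw [hS0, Finset.mem_filter, Finset.mem_product, Finset.mem_range, Finset.mem_range] at this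
    exact this
  obtain ⟨s, hs, hne⟩ := H J S hS (fun s hs => ⟨Nat.lt_succ_iff.1 (hmem s hs).1.1,
    (hmem s hs).1.2.trans_le hMJ⟩) x (fun s hs s' hs' hss =>
      hx _ (hmem s hs).1.2 _ (hmem s' hs').1.2 hss)
  exact hne (hmem s hs).2

theorem cnt_le_n (H : HCount T bad n) {J : ℕ} (hJ : 0 < J) (x : X) : cnt bad J x ≤ n := by
  have h1 := sum_cnt_le H (M := 1) (J := J) (by omega) x (fun k hk k' hk' hne => by omega)
  simpa using h1

/-- points with two close iterates -/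
def EE (T : X → X) (M J : ℕ) : Set X :=
  {x | ∃ k < M, ∃ k' < M, k ≠ k' ∧ dist (T^[k] x) (T^[k'] x) < 1 / ((J : ℝ) + 1)}

theorem isOpen_EE (hT : Continuous T) (M J : ℕ) : IsOpen (EE T M J) := by
  have h1 : EE T M J = ⋃ k ∈ {k | k < M}, ⋃ k' ∈ {k' | k' < M ∧ k ≠ k'},
      {x | dist (T^[k] x) (T^[k'] x) < 1 / ((J : ℝ) + 1)} := by
    ext x
    simp only [EE, Set.mem_iUnion, exists_prop]
    constructor
    · rintro ⟨k, hk, k', hk', hne, h⟩
      exact ⟨k, hk, k', ⟨hk', hne⟩, h⟩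
    · rintro ⟨k, hk, k', ⟨hk', hne⟩, h⟩
      exact ⟨k, hk, k', hk', hne, h⟩
  rw [h1]
  exact isOpen_biUnion fun k _ => isOpen_biUnion fun k' _ =>
    isOpen_lt ((hT.iterate _).dist (hT.iterate _)) continuous_const

theorem EE_anti (M : ℕ) : Antitone fun J => EE T M J := by
  intro J J' hJ x hx
  obtain ⟨k, hk, k', hk', hne, h⟩ := hx
  refine ⟨k, hk, k', hk', hne, h.trans_le ?_⟩
  have h1 : (J : ℝ) ≤ J' := by exact_mod_cast hJ
  exact one_div_le_one_div_of_le (by positivity) (by linarith)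

omit [MetricSpace X] in
theorem iter_ne (hT : Function.Injective T) {M : ℕ} {x : X} (hx : T^[M !] x ≠ x) {k k' : ℕ}
    (hk : k < M) (hk' : k' < M) (hne : k ≠ k') : T^[k] x ≠ T^[k'] x := by
  wlog hlt : k < k' generalizing k k'
  · exact fun h => this hk' hk hne.symm (by omega) h.symm
  intro h
  have h1 : k' = (k' - k) + k := by omega
  rw [h1, Function.iterate_add_apply] at h
  have h2 : T^[k] (T^[k' - k] x) = T^[k] x := by
    rw [← Function.iterate_add_apply, add_comm, Function.iterate_add_apply]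
    exact h.symm
  have h3 : T^[k' - k] x = x := hT.iterate k h2
  have h4 : Function.IsPeriodicPt T (k' - k) x := h3
  have h5 : (k' - k) ∣ M ! := Nat.dvd_factorial (by omega) (by omega)
  exact hx (h4.trans_dvd h5)

theorem iInter_EE (hT : Function.Injective T) (M : ℕ) :
    ⋂ J, (EE T M J ∩ {x | T^[M !] x = x}ᶜ) = ∅ := by
  rw [Set.eq_empty_iff_forall_notMem]
  intro x hx
  rw [Set.mem_iInter] at hx
  have hxB : T^[M !] x ≠ x := (hx 0).2
  have h1 : ∀ᶠ J : ℕ in atTop, ∀ p ∈ Finset.range M ×ˢ Finset.range M, p.1 ≠ p.2 →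
      1 / ((J : ℝ) + 1) ≤ dist (T^[p.1] x) (T^[p.2] x) := by
    rw [Filter.eventually_all_finset]
    intro p hp
    rw [Finset.mem_product, Finset.mem_range, Finset.mem_range] at hp
    by_cases hne : p.1 = p.2
    · exact Eventually.of_forall fun J h => absurd hne h
    · have h2 : 0 < dist (T^[p.1] x) (T^[p.2] x) := dist_pos.2 (iter_ne hT hxB hp.1 hp.2 hne)
      have h3 := (tendsto_one_div_add_atTop_nhds_zero_nat (𝕜 := ℝ)).eventually (gt_mem_nhds h2)
      filter_upwards [h3] with J hJ _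
      exact hJ.le
  obtain ⟨J, hJ⟩ := h1.exists
  obtain ⟨k, hk, k', hk', hne, h⟩ := (hx J).1
  have h2 := hJ (k, k') (Finset.mem_product.2 ⟨Finset.mem_range.2 hk, Finset.mem_range.2 hk'⟩) hne
  exact absurd h (not_lt.2 h2)

theorem tendsto_EE [MeasurableSpace X] [BorelSpace X] (hTc : Continuous T)
    (hT : Function.Injective T) (M : ℕ) (μ : Measure X) [IsProbabilityMeasure μ] :
    Tendsto (fun J => μ.real (EE T M J ∩ {x | T^[M !] x = x}ᶜ)) atTop (𝓝 0) := by
  have hB : MeasurableSet ({x | T^[M !] x = x}ᶜ) :=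
    (isClosed_eq (hTc.iterate _) continuous_id).measurableSet.compl
  have h1 : Tendsto (fun J => μ (EE T M J ∩ {x | T^[M !] x = x}ᶜ)) atTop
      (𝓝 (μ (⋂ J, (EE T M J ∩ {x | T^[M !] x = x}ᶜ)))) := by
    refine tendsto_measure_iInter_atTop
      (fun J => ((isOpen_EE hTc M J).measurableSet.inter hB).nullMeasurableSet) ?_
      ⟨0, measure_ne_top _ _⟩
    intro J J' hJ
    exact Set.inter_subset_inter_left _ (EE_anti M hJ)
  rw [iInter_EE hT M, measure_empty] at h1
  have h2 := (ENNReal.tendsto_toReal ENNReal.zero_ne_top).comp h1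
  exact h2

end

section

variable {X : Type*} [MetricSpace X] [CompactSpace X] [MeasurableSpace X] [BorelSpace X]
  {f : ℕ → X → ℝ} {bad : ℕ → ℕ → Set X} {n : ℕ}

/-- the integral of the number of bad coordinates -/
noncomputable def II (T : X → X) (bad : ℕ → ℕ → Set X) (μ : Measure X) (Q J : ℕ) : ℝ :=
  ∫ x, {x | T^[Q] x = x}ᶜ.indicator (fun x => (cnt bad J x : ℝ)) x ∂μ

omit [CompactSpace X] in
theorem II_le (hb : ∀ J j, IsClosed (bad J j)) (T : X ≃ₜ X) (H : HCount T bad n)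
    {μ : Measure X} [IsProbabilityMeasure μ] (hμ : MeasurePreserving T μ μ) {M J : ℕ} (hM : 0 < M)
    (hMJ : M ≤ J) (Q : ℕ) :
    II T bad μ Q J ≤ n / M + n * μ.real (EE T M J ∩ {x | T^[Q] x = x}ᶜ) := by
  classical
  set h : X → ℝ := {x | T^[Q] x = x}ᶜ.indicator (fun x => (cnt bad J x : ℝ)) with hh
  have hBm : MeasurableSet ({x | T^[Q] x = x}ᶜ) :=
    (isClosed_eq (T.continuous.iterate Q) continuous_id).measurableSet.compl
  have hEm : MeasurableSet (EE T M J ∩ {x | T^[Q] x = x}ᶜ) :=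
    (isOpen_EE T.continuous M J).measurableSet.inter hBm
  have hhm : Measurable h := (measurable_cnt J hb).indicator hBm
  have hh0 : ∀ x, 0 ≤ h x := fun x => Set.indicator_nonneg (fun _ _ => by positivity) _
  have hhb : ∀ x, h x ≤ J + 1 := by
    intro x
    have h1 : (cnt bad J x : ℝ) ≤ (J : ℝ) + 1 := by exact_mod_cast cnt_le bad J x
    by_cases hx : x ∈ {x | T^[Q] x = x}ᶜ
    · rw [hh, Set.indicator_of_mem hx]; exact h1
    · rw [hh, Set.indicator_of_notMem hx]; positivity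
  have hhi : Integrable h μ := by
    refine Integrable.of_bound hhm.aestronglyMeasurable (J + 1) (ae_of_all _ fun x => ?_)
    rw [Real.norm_eq_abs, abs_of_nonneg (hh0 x)]
    exact hhb x
  have hhk : ∀ k, Integrable (fun x => h (T^[k] x)) μ := fun k =>
    (hμ.iterate k).integrable_comp_of_integrable hhi
  have hhke : ∀ k, ∫ x, h (T^[k] x) ∂μ = ∫ x, h x ∂μ := by
    intro k
    have h1 := integral_map (hμ.iterate k).measurable.aemeasurable
      (f := h) (μ := μ) hhm.aestronglyMeasurable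
    rw [(hμ.iterate k).map_eq] at h1
    exact h1.symm
  have hpt : ∀ x, ∑ k ∈ Finset.range M, h (T^[k] x) ≤
      n + (EE T M J ∩ {x | T^[Q] x = x}ᶜ).indicator (fun _ => (M : ℝ) * n) x := by
    intro x
    have h3 : ∀ k, h (T^[k] x) = {x | T^[Q] x = x}ᶜ.indicator (fun _ => (cnt bad J (T^[k] x) : ℝ)) x :=
      fun k => (indicator_iterate T Q k (fun x => (cnt bad J x : ℝ)) x).symm
    simp only [h3]
    by_cases hxB : x ∈ {x | T^[Q] x = x}ᶜ
    · simp only [Set.indicator_of_mem hxB]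
      by_cases hxE : x ∈ EE T M J
      · rw [Set.indicator_of_mem (show x ∈ EE T M J ∩ {x | T^[Q] x = x}ᶜ from ⟨hxE, hxB⟩)]
        have h4 : ∑ k ∈ Finset.range M, (cnt bad J (T^[k] x) : ℝ) ≤ M * n := by
          refine (Finset.sum_le_sum fun k _ =>
            (Nat.cast_le (α := ℝ)).2 (cnt_le_n H (by omega) (T^[k] x))).trans ?_
          rw [Finset.sum_const, Finset.card_range, nsmul_eq_mul]
        have : (0 : ℝ) ≤ n := by positivity
        linarith
      · rw [Set.indicator_of_notMem (fun h => hxE h.1), add_zero]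
        have h5 := sum_cnt_le H hMJ x (fun k hk k' hk' hne => by
          by_contra hcon
          exact hxE ⟨k, hk, k', hk', hne, not_le.1 hcon⟩)
        exact_mod_cast h5
    · simp only [Set.indicator_of_notMem hxB, Finset.sum_const_zero]
      exact add_nonneg (by positivity) (Set.indicator_nonneg (fun _ _ => by positivity) _)
  have hint := integral_mono (integrable_finsetSum (Finset.range M) fun k _ => hhk k)
    ((integrable_const (n : ℝ)).add ((integrable_const ((M : ℝ) * n)).indicator hEm)) hpt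
  rw [integral_finsetSum _ (fun k _ => hhk k)] at hint
  simp only [Pi.add_apply] at hint
  rw [integral_add (integrable_const _) ((integrable_const ((M : ℝ) * n)).indicator hEm),
    integral_indicator_const _ hEm] at hint
  simp only [hhke, integral_const, probReal_univ, smul_eq_mul, one_mul, Finset.sum_const,
      Finset.card_range, nsmul_eq_mul] at hint
  have hM' : (0 : ℝ) < M := by exact_mod_cast hM
  show ∫ x, h x ∂μ ≤ _
  have h6 : (M : ℝ) * ∫ x, h x ∂μ ≤
      M * (n / M + n * μ.real (EE T M J ∩ {x | T^[Q] x = x}ᶜ)) := by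
    refine hint.trans (le_of_eq ?_)
    field_simp
  exact le_of_mul_le_mul_left h6 hM'

theorem tendsto_L : Tendsto (fun ε : ℝ => Real.logb 2 (1 / ε)) (𝓝[>] 0) atTop := by
  have h1 := (Real.tendsto_logb_atTop (show (1 : ℝ) < 2 by norm_num)).comp
    (tendsto_inv_nhdsGT_zero (𝕜 := ℝ))
  refine h1.congr fun ε => ?_
  rw [Function.comp_apply, one_div]

/-- the scale `J(ε)` -/
noncomputable def JJ (ε : ℝ) : ℕ := ⌈Real.sqrt (Real.sqrt (Real.logb 2 (1 / ε)))⌉₊

theorem tendsto_JJ : Tendsto JJ (𝓝[>] 0) atTop :=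
  tendsto_nat_ceil_atTop.comp (Real.tendsto_sqrt_atTop.comp (Real.tendsto_sqrt_atTop.comp tendsto_L))

theorem JJ_bounds {ε : ℝ} (hL : 1 ≤ Real.logb 2 (1 / ε)) :
    Real.logb 2 (1 / ε) ≤ (JJ ε : ℝ) ^ 4 ∧
      ((JJ ε : ℝ) + 1) * (JJ ε + 2) ≤ 12 * Real.sqrt (Real.logb 2 (1 / ε)) := by
  set L := Real.logb 2 (1 / ε) with hLdef
  set s := Real.sqrt (Real.sqrt L) with hs
  have hs0 : 0 ≤ s := Real.sqrt_nonneg _
  have hs2 : s ^ 2 = Real.sqrt L := Real.sq_sqrt (Real.sqrt_nonneg _)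
  have hL2 : Real.sqrt L ^ 2 = L := Real.sq_sqrt (by linarith)
  have hs1 : 1 ≤ s := Real.one_le_sqrt.2 (Real.one_le_sqrt.2 hL)
  have h1 : s ≤ JJ ε := Nat.le_ceil _
  have h2 : (JJ ε : ℝ) < s + 1 := Nat.ceil_lt_add_one hs0
  constructor
  · have h3 : s ^ 4 = L := by rw [← hL2, ← hs2]; ring
    rw [← h3]
    exact pow_le_pow_left₀ hs0 h1 4
  · rw [← hs2]
    have h4 : (JJ ε : ℝ) + 1 ≤ 3 * s := by linarith
    have h5 : (JJ ε : ℝ) + 2 ≤ 4 * s := by linarith
    have h6 : (0 : ℝ) ≤ (JJ ε : ℝ) + 2 := by positivity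
    calc ((JJ ε : ℝ) + 1) * (JJ ε + 2) ≤ (3 * s) * (4 * s) :=
          mul_le_mul h4 h5 h6 (by positivity)
      _ = 12 * s ^ 2 := by ring

theorem ratio_le (hc : ∀ j, Continuous (f j)) (h01 : ∀ j x, 0 ≤ f j x ∧ f j x ≤ 1)
    (hb : ∀ J j, IsClosed (bad J j))
    (hk : ∀ J j x, x ∉ bad J j → ∃ k : ℕ, k ≤ 2 ^ J ∧ f j x = k / 2 ^ J) (T : X ≃ₜ X)
    (H : HCount T bad n) {μ : Measure X} [IsProbabilityMeasure μ] (hμ : MeasurePreserving T μ μ)
    {M : ℕ} (hM : 0 < M) {ε : ℝ} (hε : 0 < ε) (hL : 4 ≤ Real.logb 2 (1 / ε)) (hMJ : M ≤ JJ ε) :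
    rate T (dd f) μ ε / ENNReal.ofReal (Real.logb 2 (1 / ε)) ≤ ENNReal.ofReal
      (12 / Real.sqrt (Real.logb 2 (1 / ε)) +
        2 * (n / M + n * μ.real (EE T M (JJ ε) ∩ {x | T^[M !] x = x}ᶜ))) := by
  set L := Real.logb 2 (1 / ε) with hLdef
  set J := JJ ε with hJ
  obtain ⟨hJ1, hJ2⟩ := JJ_bounds (ε := ε) (by linarith)
  rw [← hLdef, ← hJ] at hJ1 hJ2
  have hL0 : 0 < L := by linarith
  set R : ℕ := ⌈4 / ε⌉₊ with hR
  have hR1 : 4 / ε ≤ R := Nat.le_ceil _
  have hR2 : (R : ℝ) < 4 / ε + 1 := Nat.ceil_lt_add_one (by positivity)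
  have hR0 : 0 < R := Nat.ceil_pos.2 (by positivity)
  have hR0' : (0 : ℝ) < R := by exact_mod_cast hR0
  -- `ε = 2^{-L}`
  have hεL : ε = 2 ^ (-L) := by
    rw [hLdef, one_div, Real.logb_inv, neg_neg, Real.rpow_logb (by norm_num) (by norm_num) hε]
  have hdist : 1 / (R : ℝ) + 2 * (1 / 2) ^ ((J + 2) ^ 4) < ε := by
    have h1 : 1 / (R : ℝ) ≤ ε / 4 := by
      rw [div_le_iff₀ hR0']
      have h2 := mul_le_mul_of_nonneg_left hR1 (show (0 : ℝ) ≤ ε / 4 by positivity)
      have h3 : ε / 4 * (4 / ε) = 1 := by field_simp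
      rw [h3] at h2
      exact h2
    have h4 : ((1 : ℝ) / 2) ^ ((J + 2) ^ 4) ≤ ε / 8 := by
      have h5 : ((1 : ℝ) / 2) ^ ((J + 2) ^ 4) = 2 ^ (-(((J + 2) ^ 4 : ℕ) : ℝ)) := by
        rw [Real.rpow_neg (by norm_num), Real.rpow_natCast, one_div, inv_pow]
      have h6 : ε / 8 = 2 ^ (-(L + 3)) := by
        rw [neg_add, Real.rpow_add (by norm_num), ← hεL]
        have : (2 : ℝ) ^ (-3 : ℝ) = 1 / 8 := by
          rw [Real.rpow_neg (by norm_num)]
          norm_num
        rw [this]; ring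
      rw [h5, h6]
      apply Real.rpow_le_rpow_of_exponent_le (by norm_num)
      apply neg_le_neg
      push_cast
      have h7 : ((J : ℝ) + 2) ^ 4 = (J : ℝ) ^ 4 + 8 * (J : ℝ) ^ 3 + 24 * (J : ℝ) ^ 2 + 32 * J + 16 := by
        ring
      have h8 : (0 : ℝ) ≤ 8 * (J : ℝ) ^ 3 := by positivity
      have h9 : (0 : ℝ) ≤ 24 * (J : ℝ) ^ 2 := by positivity
      have h10 : (0 : ℝ) ≤ 32 * (J : ℝ) := by positivity
      rw [h7]
      linarith
    linarith
  have hQ : 0 < M ! := Nat.factorial_pos _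
  have hrate := rate_le hc h01 hb hk T hμ hR0 hdist hQ
  have hlog2 : 0 < Real.log 2 := Real.log_pos (by norm_num)
  set I := ∫ x, {x | T^[M !] x = x}ᶜ.indicator (fun x => (cnt bad J x : ℝ)) x ∂μ with hI
  have hI0 : 0 ≤ I := integral_nonneg fun x => Set.indicator_nonneg (fun _ _ => by positivity) _
  have hIle : I ≤ n / M + n * μ.real (EE T M J ∩ {x | T^[M !] x = x}ᶜ) := II_le hb T H hμ hM hMJ _
  -- the two logarithms
  have hlog1 : Real.log (2 * ((2 : ℝ) ^ J + 1)) ≤ (J + 2) * Real.log 2 := by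
    have h1 : (2 : ℝ) * (2 ^ J + 1) ≤ 2 ^ (J + 2) := by
      have : (1 : ℝ) ≤ 2 ^ J := one_le_pow₀ (by norm_num)
      rw [pow_add]
      linarith
    have h2 := Real.log_le_log (by positivity) h1
    rw [Real.log_pow] at h2
    push_cast at h2
    exact h2
  have hlog3 : Real.log (2 * ((R : ℝ) + 1)) ≤ (4 + L) * Real.log 2 := by
    have hε1 : ε ≤ 1 := by
      rw [hεL]
      exact Real.rpow_le_one_of_one_le_of_nonpos (by norm_num) (by linarith)
    have h1 : 2 * ((R : ℝ) + 1) ≤ 16 / ε := by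
      have h2 : 1 ≤ 1 / ε := by rw [le_div_iff₀ hε]; linarith
      have h3 : 4 / ε = 4 * (1 / ε) := by ring
      have h4 : 16 / ε = 16 * (1 / ε) := by ring
      rw [h3] at hR2
      rw [h4]
      linarith
    have h2 := Real.log_le_log (by positivity) h1
    have h3 : 16 / ε = 16 * (1 / ε) := by ring
    have h6 : Real.log (16 * (1 / ε)) = Real.log 16 + Real.log (1 / ε) :=
      Real.log_mul (by norm_num) (by positivity)
    rw [h3, h6] at h2
    have h4 : Real.log 16 = 4 * Real.log 2 := by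
      rw [show (16 : ℝ) = 2 ^ 4 by norm_num, Real.log_pow]
      norm_num
    have h5 : Real.log (1 / ε) = L * Real.log 2 := by
      rw [hLdef, Real.logb, div_mul_cancel₀ _ hlog2.ne']
    rw [h4, h5] at h2
    linarith
  have hB : (((J : ℝ) + 1) * Real.log (2 * (2 ^ J + 1)) + I * Real.log (2 * (R + 1))) / Real.log 2 ≤
      ((J : ℝ) + 1) * (J + 2) + I * (4 + L) := by
    rw [div_le_iff₀ hlog2]
    have h1 := mul_le_mul_of_nonneg_left hlog1 (show (0 : ℝ) ≤ (J : ℝ) + 1 by positivity)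
    have h2 := mul_le_mul_of_nonneg_left hlog3 hI0
    nlinarith
  have hfin : (((J : ℝ) + 1) * (J + 2) + I * (4 + L)) / L ≤ 12 / Real.sqrt L +
        2 * (n / M + n * μ.real (EE T M J ∩ {x | T^[M !] x = x}ᶜ)) := by
    have hsq : 0 < Real.sqrt L := Real.sqrt_pos.2 hL0
    have hLs : L = Real.sqrt L * Real.sqrt L := (Real.mul_self_sqrt hL0.le).symm
    rw [add_div]
    refine add_le_add ?_ ?_
    · rw [div_le_div_iff₀ hL0 hsq]
      calc ((J : ℝ) + 1) * (J + 2) * Real.sqrt L ≤ (12 * Real.sqrt L) * Real.sqrt L :=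
            mul_le_mul_of_nonneg_right hJ2 hsq.le
        _ = 12 * L := by rw [mul_assoc, ← hLs]
    · rw [div_le_iff₀ hL0]
      have h1 : I * (4 + L) ≤ I * (2 * L) := mul_le_mul_of_nonneg_left (by linarith) hI0
      have h2 := mul_le_mul_of_nonneg_right hIle (show (0 : ℝ) ≤ 2 * L by positivity)
      linarith
  calc rate T (dd f) μ ε / ENNReal.ofReal L
      ≤ ENNReal.ofReal (((J : ℝ) + 1) * (J + 2) + I * (4 + L)) / ENNReal.ofReal L :=
        ENNReal.div_le_div_right (hrate.trans (ENNReal.ofReal_le_ofReal hB)) _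
    _ = ENNReal.ofReal ((((J : ℝ) + 1) * (J + 2) + I * (4 + L)) / L) :=
        (ENNReal.ofReal_div_of_pos hL0).symm
    _ ≤ _ := ENNReal.ofReal_le_ofReal hfin

theorem rdimU_eq_zero (hc : ∀ j, Continuous (f j)) (h01 : ∀ j x, 0 ≤ f j x ∧ f j x ≤ 1)
    (hb : ∀ J j, IsClosed (bad J j))
    (hk : ∀ J j x, x ∉ bad J j → ∃ k : ℕ, k ≤ 2 ^ J ∧ f j x = k / 2 ^ J) (T : X ≃ₜ X)
    (H : HCount T bad n) {μ : Measure X} [IsProbabilityMeasure μ]
    (hμ : MeasurePreserving T μ μ) : rdimU T (dd f) μ = 0 := by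
  have hM : ∀ M : ℕ, 0 < M → rdimU T (dd f) μ ≤ ENNReal.ofReal (2 * n / M) := by
    intro M hM
    have h1 : Tendsto (fun ε : ℝ => ENNReal.ofReal
      (12 / Real.sqrt (Real.logb 2 (1 / ε)) +
        2 * (n / M + n * μ.real (EE T M (JJ ε) ∩ {x | T^[M !] x = x}ᶜ)))) (𝓝[>] 0)
        (𝓝 (ENNReal.ofReal (0 + 2 * (n / M + n * 0)))) := by
      refine ENNReal.tendsto_ofReal (Tendsto.add ?_ (Tendsto.const_mul _
        (Tendsto.const_add _ (Tendsto.const_mul _ ?_))))
      · exact (Real.tendsto_sqrt_atTop.comp tendsto_L).const_div_atTop 12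
      · exact (tendsto_EE T.continuous T.injective M μ).comp tendsto_JJ
    have h2 : ENNReal.ofReal (0 + 2 * ((n : ℝ) / M + n * 0)) = ENNReal.ofReal (2 * n / M) := by
      congr 1; ring
    rw [h2] at h1
    unfold rdimU
    rw [← h1.limsup_eq]
    refine limsup_le_limsup ?_
    filter_upwards [self_mem_nhdsWithin, tendsto_L.eventually_ge_atTop 4,
      tendsto_JJ.eventually_ge_atTop M] with ε h3 h4 h5
    exact ratio_le hc h01 hb hk T H hμ hM h3 h4 h5
  have h3 : Tendsto (fun M : ℕ => ENNReal.ofReal (2 * n / M)) atTop (𝓝 (ENNReal.ofReal 0)) :=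
    ENNReal.tendsto_ofReal (tendsto_const_div_atTop_nhds_zero_nat _)
  rw [ENNReal.ofReal_zero] at h3
  refine le_antisymm (ge_of_tendsto h3 ?_) bot_le
  filter_upwards [eventually_gt_atTop 0] with M hM'
  exact hM M hM'

end

end H3.MD
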