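import Mathlib

/-!
# A Cantor staircase with prescribed smallness of the steps
-/

set_option autoImplicit false

open Topology Filter

namespace H3.MD

/-- clamp to `[0,1]` -/
noncomputable def clamp (y : ℝ) : ℝ := max 0 (min 1 y)

theorem clamp_nonneg (y : ℝ) : 0 ≤ clamp y := le_max_left _ _

theorem clamp_le_one (y : ℝ) : clamp y ≤ 1 := max_le zero_le_one (min_le_left _ _)

theorem clamp_of_le {y : ℝ} (h : y ≤ 0) : clamp y = 0 := by
  unfold clamp
  rw [max_eq_left]
  exact (min_le_right _ _).trans h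

theorem clamp_of_ge {y : ℝ} (h : 1 ≤ y) : clamp y = 1 := by
  unfold clamp
  rw [min_eq_left h, max_eq_right zero_le_one]

theorem continuous_clamp : Continuous clamp := by
  unfold clamp; fun_prop

section Stair

variable (ch : ℕ → Finset ℚ → ℚ)

/-- the levels: left end points and width -/
noncomputable def lv : ℕ → Finset ℚ × ℚ
  | 0 => ({3 / 8}, min (1 / 8) (ch 0 {3 / 8}))
  | J + 1 =>
    let P' := (lv J).1 ∪ (lv J).1.image (fun c => c + (lv J).2 / 2)
    (P', min ((lv J).2 / 4) (ch (J + 1) P'))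

/-- left end points of level `J` -/
noncomputable def Pt (J : ℕ) : Finset ℚ := (lv ch J).1

/-- width of level `J` -/
noncomputable def wd (J : ℕ) : ℚ := (lv ch J).2

theorem Pt_zero : Pt ch 0 = {3 / 8} := rfl

theorem Pt_succ (J : ℕ) : Pt ch (J + 1) = Pt ch J ∪ (Pt ch J).image (fun c => c + wd ch J / 2) := rfl

theorem wd_zero : wd ch 0 = min (1 / 8) (ch 0 (Pt ch 0)) := rfl

theorem wd_succ (J : ℕ) : wd ch (J + 1) = min (wd ch J / 4) (ch (J + 1) (Pt ch (J + 1))) := rfl

variable {ch} (hch : ∀ J P, 0 < ch J P)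
include hch

theorem wd_pos (J : ℕ) : 0 < wd ch J := by
  induction J with
  | zero => rw [wd_zero]; exact lt_min (by norm_num) (hch _ _)
  | succ J ih => rw [wd_succ]; exact lt_min (by positivity) (hch _ _)

omit hch in
theorem wd_le_ch (J : ℕ) : wd ch J ≤ ch J (Pt ch J) := by
  cases J with
  | zero => rw [wd_zero]; exact min_le_right _ _
  | succ J => rw [wd_succ]; exact min_le_right _ _

omit hch in
theorem wd_succ_le (J : ℕ) : wd ch (J + 1) ≤ wd ch J / 4 := by
  rw [wd_succ]; exact min_le_left _ _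

theorem Pt_range (J : ℕ) : ∀ c ∈ Pt ch J, 3 / 8 ≤ c ∧ c + wd ch J ≤ 1 / 2 := by
  induction J with
  | zero =>
    intro c hc
    rw [Pt_zero, Finset.mem_singleton] at hc
    subst hc
    have : wd ch 0 ≤ 1 / 8 := by rw [wd_zero]; exact min_le_left _ _
    constructor <;> linarith
  | succ J ih =>
    intro c hc
    rw [Pt_succ, Finset.mem_union, Finset.mem_image] at hc
    have h1 := wd_succ_le (ch := ch) J
    have h2 := wd_pos hch J
    rcases hc with hc | ⟨c', hc', rfl⟩
    · have := ih c hc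
      constructor <;> linarith [this.1, this.2]
    · have := ih c' hc'
      constructor <;> linarith [this.1, this.2]

theorem Pt_sep (J : ℕ) : ∀ c ∈ Pt ch J, ∀ c' ∈ Pt ch J, c < c' → c + 2 * wd ch J ≤ c' := by
  induction J with
  | zero =>
    intro c hc c' hc' hlt
    rw [Pt_zero, Finset.mem_singleton] at hc hc'
    rw [hc, hc'] at hlt
    exact absurd hlt (lt_irrefl _)
  | succ J ih =>
    intro c hc c' hc' hlt
    rw [Pt_succ, Finset.mem_union, Finset.mem_image] at hc hc'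
    have h1 := wd_succ_le (ch := ch) J
    have h2 := wd_pos hch J
    rcases hc with hc | ⟨b, hb, rfl⟩
    · rcases hc' with hc' | ⟨b', hb', rfl⟩
      · have := ih c hc c' hc' hlt
        linarith
      · by_cases h : c ≤ b'
        · linarith
        · push Not at h
          have := ih b' hb' c hc h
          linarith
    · rcases hc' with hc' | ⟨b', hb', rfl⟩
      · have h3 : b < c' := by linarith
        have := ih b hb c' hc' h3
        linarith
      · have h3 : b < b' := by linarith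
        have := ih b hb b' hb' h3
        linarith

theorem Pt_disj (J : ℕ) : Disjoint (Pt ch J) ((Pt ch J).image (fun c => c + wd ch J / 2)) := by
  rw [Finset.disjoint_left]
  intro c hc hc'
  rw [Finset.mem_image] at hc'
  obtain ⟨b, hb, hbc⟩ := hc'
  have h2 := wd_pos hch J
  have := Pt_sep hch J b hb c hc (by linarith)
  linarith

theorem Pt_card (J : ℕ) : (Pt ch J).card = 2 ^ J := by
  induction J with
  | zero => simp [Pt_zero]
  | succ J ih =>
    rw [Pt_succ, Finset.card_union_of_disjoint (Pt_disj hch J),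
      Finset.card_image_of_injective _ (add_left_injective _), ih, pow_succ]
    ring

omit hch in
/-- the approximations of the staircase -/
noncomputable def FJ (ch : ℕ → Finset ℚ → ℚ) (J : ℕ) (t : ℝ) : ℝ :=
  (1 / 2 ^ J) * ∑ c ∈ Pt ch J, clamp ((t - (c : ℝ)) / (wd ch J : ℝ))

omit hch in
theorem continuous_FJ (J : ℕ) : Continuous (FJ ch J) := by
  unfold FJ
  refine continuous_const.mul (continuous_finsetSum _ fun c _ => ?_)
  exact continuous_clamp.comp ((continuous_id.sub continuous_const).div_const _)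

/-- difference of consecutive approximations -/
theorem FJ_succ_sub (J : ℕ) (t : ℝ) : FJ ch (J + 1) t - FJ ch J t =
    (1 / 2 ^ J) * ∑ c ∈ Pt ch J, ((clamp ((t - (c : ℝ)) / (wd ch (J + 1) : ℝ)) +
      clamp ((t - (c : ℝ) - (wd ch J : ℝ) / 2) / (wd ch (J + 1) : ℝ))) / 2 -
      clamp ((t - (c : ℝ)) / (wd ch J : ℝ))) := by
  unfold FJ
  rw [Pt_succ, Finset.sum_union (Pt_disj hch J),
    Finset.sum_image (fun a _ b _ h => add_left_injective _ h), Finset.sum_sub_distrib,
    ← Finset.sum_div, Finset.sum_add_distrib]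
  have h1 : ∑ c ∈ Pt ch J, clamp ((t - ((c + wd ch J / 2 : ℚ) : ℝ)) / (wd ch (J + 1) : ℝ)) =
      ∑ c ∈ Pt ch J, clamp ((t - (c : ℝ) - (wd ch J : ℝ) / 2) / (wd ch (J + 1) : ℝ)) := by
    refine Finset.sum_congr rfl fun c _ => ?_
    congr 2
    push_cast
    ring
  rw [h1, pow_succ]
  field_simp

theorem bracket_zero (J : ℕ) (t : ℝ) (c : ℚ) (h : t ≤ c ∨ (c : ℝ) + wd ch J ≤ t) :
    (clamp ((t - (c : ℝ)) / (wd ch (J + 1) : ℝ)) +
      clamp ((t - (c : ℝ) - (wd ch J : ℝ) / 2) / (wd ch (J + 1) : ℝ))) / 2 -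
      clamp ((t - (c : ℝ)) / (wd ch J : ℝ)) = 0 := by
  have h1 : (0 : ℝ) < wd ch (J + 1) := by exact_mod_cast wd_pos hch (J + 1)
  have h2 : (0 : ℝ) < wd ch J := by exact_mod_cast wd_pos hch J
  have h3 : ((wd ch (J + 1) : ℚ) : ℝ) ≤ (wd ch J : ℝ) / 4 := by
    have := wd_succ_le (ch := ch) J
    have h4 : ((wd ch (J + 1) : ℚ) : ℝ) ≤ ((wd ch J / 4 : ℚ) : ℝ) := by exact_mod_cast this
    push_cast at h4
    exact h4
  rcases h with h | h
  · rw [clamp_of_le (div_nonpos_of_nonpos_of_nonneg (by linarith) h1.le),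
      clamp_of_le (div_nonpos_of_nonpos_of_nonneg (by linarith) h1.le),
      clamp_of_le (div_nonpos_of_nonpos_of_nonneg (by linarith) h2.le)]
    norm_num
  · rw [clamp_of_ge ((one_le_div h1).2 (by linarith)),
      clamp_of_ge ((one_le_div h1).2 (by linarith)),
      clamp_of_ge ((one_le_div h2).2 (by linarith))]
    norm_num

theorem FJ_step (J : ℕ) (t : ℝ) : |FJ ch (J + 1) t - FJ ch J t| ≤ 1 / 2 ^ J := by
  rw [FJ_succ_sub hch, abs_mul, abs_of_nonneg (by positivity : (0 : ℝ) ≤ 1 / 2 ^ J)]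
  apply mul_le_of_le_one_right (by positivity)
  have h2 : (0 : ℝ) < wd ch J := by exact_mod_cast wd_pos hch J
  by_cases hex : ∃ c0 ∈ Pt ch J, (c0 : ℝ) < t ∧ t < c0 + wd ch J
  · obtain ⟨c0, hc0, h3, h4⟩ := hex
    rw [Finset.sum_eq_single c0]
    · have e1 := clamp_nonneg ((t - (c0 : ℝ)) / (wd ch (J + 1) : ℝ))
      have e2 := clamp_le_one ((t - (c0 : ℝ)) / (wd ch (J + 1) : ℝ))
      have e3 := clamp_nonneg ((t - (c0 : ℝ) - (wd ch J : ℝ) / 2) / (wd ch (J + 1) : ℝ))
      have e4 := clamp_le_one ((t - (c0 : ℝ) - (wd ch J : ℝ) / 2) / (wd ch (J + 1) : ℝ))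
      have e5 := clamp_nonneg ((t - (c0 : ℝ)) / (wd ch J : ℝ))
      have e6 := clamp_le_one ((t - (c0 : ℝ)) / (wd ch J : ℝ))
      rw [abs_le]
      constructor <;> linarith
    · intro c hc hne
      apply bracket_zero hch
      rcases lt_or_gt_of_ne hne with hlt | hlt
      · right
        have := Pt_sep hch J c hc c0 hc0 hlt
        have h5 : (c : ℝ) + 2 * (wd ch J : ℝ) ≤ c0 := by exact_mod_cast this
        linarith
      · left
        have := Pt_sep hch J c0 hc0 c hc hlt
        have h5 : (c0 : ℝ) + 2 * (wd ch J : ℝ) ≤ c := by exact_mod_cast this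
        linarith
    · intro h; exact absurd hc0 h
  · rw [Finset.sum_eq_zero]
    · simp
    · intro c hc
      apply bracket_zero hch
      by_contra hcon
      push Not at hcon
      exact hex ⟨c, hc, hcon.1, hcon.2⟩

/-- bad set of level `J` -/
def ZJ (ch : ℕ → Finset ℚ → ℚ) (J : ℕ) : Set ℝ := {t | ∃ c ∈ Pt ch J, (c : ℝ) ≤ t ∧ t ≤ c + wd ch J}

theorem ZJ_anti (J : ℕ) : ZJ ch (J + 1) ⊆ ZJ ch J := by
  rintro t ⟨c, hc, h1, h2⟩
  have h3 : ((wd ch (J + 1) : ℚ) : ℝ) ≤ (wd ch J : ℝ) / 4 := by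
    have := wd_succ_le (ch := ch) J
    have h4 : ((wd ch (J + 1) : ℚ) : ℝ) ≤ ((wd ch J / 4 : ℚ) : ℝ) := by exact_mod_cast this
    push_cast at h4
    exact h4
  have h4 : (0 : ℝ) < wd ch J := by exact_mod_cast wd_pos hch J
  rw [Pt_succ, Finset.mem_union, Finset.mem_image] at hc
  rcases hc with hc | ⟨b, hb, rfl⟩
  · exact ⟨c, hc, h1, by linarith⟩
  · refine ⟨b, hb, ?_, ?_⟩
    · push_cast at h1; linarith
    · push_cast at h2; linarith

theorem ZJ_anti' {J J' : ℕ} (h : J ≤ J') : ZJ ch J' ⊆ ZJ ch J := by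
  induction h with
  | refl => exact subset_rfl
  | step _ ih => exact (ZJ_anti hch _).trans ih

theorem FJ_const {J : ℕ} {t : ℝ} (ht : t ∉ ZJ ch J) : FJ ch (J + 1) t = FJ ch J t := by
  rw [← sub_eq_zero, FJ_succ_sub hch, Finset.sum_eq_zero, mul_zero]
  intro c hc
  apply bracket_zero hch
  by_contra hcon
  push Not at hcon
  exact ht ⟨c, hc, hcon.1.le, hcon.2.le⟩

theorem FJ_const' {J J' : ℕ} (h : J ≤ J') {t : ℝ} (ht : t ∉ ZJ ch J) : FJ ch J' t = FJ ch J t := by
  induction h with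
  | refl => rfl
  | step h ih =>
    rw [FJ_const hch (fun h' => ht (ZJ_anti' hch h h')), ih]

theorem FJ_val {J : ℕ} {t : ℝ} (ht : t ∉ ZJ ch J) : ∃ k : ℕ, k ≤ 2 ^ J ∧ FJ ch J t = k / 2 ^ J := by
  classical
  have h2 : (0 : ℝ) < wd ch J := by exact_mod_cast wd_pos hch J
  refine ⟨((Pt ch J).filter (fun c : ℚ => (c : ℝ) + wd ch J < t)).card, ?_, ?_⟩
  · rw [← Pt_card hch J]
    exact Finset.card_filter_le _ _
  · unfold FJ
    have h1 : ∀ c ∈ Pt ch J, clamp ((t - (c : ℝ)) / (wd ch J : ℝ)) =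
        if (c : ℝ) + wd ch J < t then 1 else 0 := by
      intro c hc
      by_cases h : (c : ℝ) + wd ch J < t
      · rw [if_pos h, clamp_of_ge ((one_le_div h2).2 (by linarith))]
      · rw [if_neg h]
        apply clamp_of_le
        apply div_nonpos_of_nonpos_of_nonneg _ h2.le
        by_contra h3
        push Not at h3 h
        exact ht ⟨c, hc, by linarith, h⟩
    rw [Finset.sum_congr rfl h1, Finset.sum_boole]
    ring

omit hch in
theorem dist_FJ_step (hch : ∀ J P, 0 < ch J P) (t : ℝ) (n : ℕ) :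
    dist (FJ ch n t) (FJ ch (n + 1) t) ≤ 2 / 2 / 2 ^ n := by
  rw [dist_comm, Real.dist_eq]
  refine (FJ_step hch n t).trans (le_of_eq ?_)
  norm_num

end Stair

/-- Existence of a staircase: `θ` is continuous, equal to `0` on the left of `3/8` and to `1` on the
right of `1/2`; off the union of the intervals `[c, c + w J]`, `c ∈ P J`, it takes only the values
`k / 2 ^ J`; the widths can be prescribed to be small in terms of the end points. -/
theorem exists_stair (ch : ℕ → Finset ℚ → ℚ) (hch : ∀ J P, 0 < ch J P) :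
    ∃ (P : ℕ → Finset ℚ) (w : ℕ → ℚ) (θ : ℝ → ℝ), (∀ J, 0 < w J) ∧ (∀ J, w J ≤ ch J (P J)) ∧
      Continuous θ ∧ (∀ t, 0 ≤ θ t ∧ θ t ≤ 1) ∧ (∀ t < 3 / 8, θ t = 0) ∧ (∀ t > 1 / 2, θ t = 1) ∧
      ∀ (J : ℕ) (t : ℝ), (¬ ∃ c ∈ P J, (c : ℝ) ≤ t ∧ t ≤ c + w J) →
        ∃ k : ℕ, k ≤ 2 ^ J ∧ θ t = k / 2 ^ J := by
  have hlim : ∀ t : ℝ, ∃ y : ℝ, Tendsto (fun J => FJ ch J t) atTop (𝓝 y) := fun t =>
    cauchySeq_tendsto_of_complete (cauchySeq_of_le_geometric_two (dist_FJ_step hch t))
  choose θ hθ using hlim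
  have hdist : ∀ (t : ℝ) (n : ℕ), dist (FJ ch n t) (θ t) ≤ 2 / 2 ^ n := fun t n =>
    dist_le_of_le_geometric_two_of_tendsto (dist_FJ_step hch t) (hθ t) n
  have hcont : Continuous θ := by
    have hunif : TendstoUniformly (fun J => FJ ch J) θ atTop := by
      rw [Metric.tendstoUniformly_iff]
      intro ε hε
      have h1 : Tendsto (fun n : ℕ => (2 : ℝ) / 2 ^ n) atTop (𝓝 0) := by
        have h2 := (tendsto_pow_atTop_nhds_zero_of_lt_one (by norm_num : (0 : ℝ) ≤ 1 / 2)
          (by norm_num)).const_mul 2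
        rw [mul_zero] at h2
        refine h2.congr fun n => ?_
        rw [one_div, inv_pow]; rfl
      filter_upwards [h1.eventually (gt_mem_nhds hε)] with n hn t
      rw [dist_comm]
      exact (hdist t n).trans_lt hn
    exact hunif.continuous (Frequently.of_forall fun J => continuous_FJ J)
  have hval : ∀ (J : ℕ) (t : ℝ), t ∉ ZJ ch J → θ t = FJ ch J t := by
    intro J t ht
    refine tendsto_nhds_unique (hθ t) (tendsto_const_nhds.congr' ?_)
    filter_upwards [eventually_ge_atTop J] with J' hJ'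
    exact (FJ_const' hch hJ' ht).symm
  have hF0 : ∀ t, FJ ch 0 t = clamp ((t - 3 / 8) / (wd ch 0 : ℝ)) := by
    intro t
    unfold FJ
    rw [Pt_zero, Finset.sum_singleton]
    push_cast
    norm_num
  have hw0 : (0 : ℝ) < wd ch 0 := by exact_mod_cast wd_pos hch 0
  have hw0' : ((wd ch 0 : ℚ) : ℝ) ≤ 1 / 8 := by
    have h1 : wd ch 0 ≤ 1 / 8 := by rw [wd_zero]; exact min_le_left _ _
    have h2 : ((wd ch 0 : ℚ) : ℝ) ≤ ((1 / 8 : ℚ) : ℝ) := by exact_mod_cast h1
    push_cast at h2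
    exact h2
  refine ⟨Pt ch, wd ch, θ, wd_pos hch, wd_le_ch, hcont, ?_, ?_, ?_, ?_⟩
  · intro t
    constructor
    · refine ge_of_tendsto' (hθ t) fun J => ?_
      unfold FJ
      exact mul_nonneg (by positivity) (Finset.sum_nonneg fun c _ => clamp_nonneg _)
    · refine le_of_tendsto' (hθ t) fun J => ?_
      unfold FJ
      have h1 : ∑ c ∈ Pt ch J, clamp ((t - (c : ℝ)) / (wd ch J : ℝ)) ≤ 2 ^ J := by
        refine (Finset.sum_le_sum fun c _ => clamp_le_one _).trans ?_
        rw [Finset.sum_const, Pt_card hch, nsmul_eq_mul, mul_one]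
        push_cast
        exact le_rfl
      rw [one_div, inv_mul_le_iff₀ (by positivity), mul_one]
      exact h1
  · intro t ht
    rw [hval 0 t ?_, hF0, clamp_of_le (div_nonpos_of_nonpos_of_nonneg (by linarith) hw0.le)]
    rintro ⟨c, hc, h1, _⟩
    rw [Pt_zero, Finset.mem_singleton] at hc
    rw [hc] at h1
    push_cast at h1
    linarith
  · intro t ht
    rw [hval 0 t ?_, hF0, clamp_of_ge ((one_le_div hw0).2 (by linarith))]
    rintro ⟨c, hc, _, h1⟩
    rw [Pt_zero, Finset.mem_singleton] at hc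
    rw [hc] at h1
    push_cast at h1
    linarith
  · intro J t ht
    have ht' : t ∉ ZJ ch J := ht
    obtain ⟨k, hk, hk'⟩ := FJ_val hch ht'
    exact ⟨k, hk, by rw [hval J t ht', hk']⟩

end H3.MD
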