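import Pool.Agent.Lib_helper3.MD.Generic
import Pool.Agent.Lib_helper3.MD.Stair

/-!
# The separating sequence of staircase functions
-/

set_option autoImplicit false

open Topology

namespace H3.MD

open scoped BoundedContinuousFunction

variable {X : Type*} [MetricSpace X] [CompactSpace X]

omit [CompactSpace X] in
theorem exists_homeo_pow (T : X ≃ₜ X) : ∃ τ : ℕ → X ≃ₜ X, ∀ k x, τ k x = T^[k] x := by
  have h : ∀ k : ℕ, ∃ g : X ≃ₜ X, ∀ x, g x = T^[k] x := by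
    intro k
    induction k with
    | zero => exact ⟨Homeomorph.refl X, fun x => rfl⟩
    | succ k ih =>
      obtain ⟨g, hg⟩ := ih
      refine ⟨g.trans T, fun x => ?_⟩
      rw [Homeomorph.trans_apply, hg, Function.iterate_succ_apply']
  choose τ hτ using h
  exact ⟨τ, hτ⟩

/-- a separating sequence -/
theorem exists_sep (X : Type*) [MetricSpace X] [CompactSpace X] [Nonempty X] :
    ∃ v : (ℕ × X) →ᵇ ℝ, ∀ x y, x ≠ y → ∃ j, v (j, x) < 1 / 4 ∧ v (j, y) = 1 := by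
  set a := TopologicalSpace.denseSeq X with ha
  set g : ℕ × X → ℝ := fun p =>
    min 1 (((Nat.unpair p.1).2 + 1 : ℝ) * dist p.2 (a (Nat.unpair p.1).1)) with hg
  have hgc : Continuous g := by
    rw [continuous_prod_of_discrete_left]
    intro j
    have h1 : Continuous fun x : X => ((Nat.unpair j).2 + 1 : ℝ) * dist x (a (Nat.unpair j).1) :=
      continuous_const.mul (continuous_id.dist continuous_const)
    exact continuous_const.min h1
  have hg0 : ∀ p, 0 ≤ g p := fun p => le_min zero_le_one (by positivity)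
  have hg1 : ∀ p, g p ≤ 1 := fun p => min_le_left _ _
  refine ⟨BoundedContinuousFunction.ofNormedAddCommGroup g hgc 1 (fun p => ?_), ?_⟩
  · rw [Real.norm_eq_abs, abs_of_nonneg (hg0 p)]; exact hg1 p
  · intro x y hxy
    have hδ : 0 < dist x y := dist_pos.2 hxy
    obtain ⟨m, hm⟩ := exists_nat_one_div_lt (show (0 : ℝ) < dist x y / 2 by positivity)
    have hm0 : (0 : ℝ) < (m : ℝ) + 1 := by positivity
    have hpos : (0 : ℝ) < 1 / ((m : ℝ) + 1) / 4 := by positivity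
    obtain ⟨z, hz, i, rfl⟩ := Metric.dense_iff.1 (TopologicalSpace.denseRange_denseSeq X) x _ hpos
    have hz' : dist x (a i) < 1 / ((m : ℝ) + 1) / 4 := by rw [dist_comm]; exact hz
    refine ⟨Nat.pair i m, ?_, ?_⟩
    · show g (Nat.pair i m, x) < 1 / 4
      simp only [hg, Nat.unpair_pair]
      refine min_lt_of_right_lt ?_
      have h1 := mul_lt_mul_of_pos_left hz' hm0
      have h2 : ((m : ℝ) + 1) * (1 / ((m : ℝ) + 1) / 4) = 1 / 4 := by field_simp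
      rw [h2] at h1
      exact h1
    · show g (Nat.pair i m, y) = 1
      simp only [hg, Nat.unpair_pair]
      refine min_eq_left ?_
      have h1 : dist x y ≤ dist x (a i) + dist y (a i) := dist_triangle_right _ _ _
      have h3 : 1 / ((m : ℝ) + 1) ≤ dist y (a i) := by
        have : (0 : ℝ) < 1 / ((m : ℝ) + 1) := by positivity
        linarith
      have h4 := mul_le_mul_of_nonneg_left h3 hm0.le
      have h5 : ((m : ℝ) + 1) * (1 / ((m : ℝ) + 1)) = 1 := by field_simp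
      rw [h5] at h4
      exact h4

/-- quantitative genericity -/
def Good (T : X → X) (n : ℕ) (u : ℕ × X → ℝ) (J : ℕ) (P : Finset ℚ) (w : ℚ) : Prop :=
  ∀ S : Finset (ℕ × ℕ), S.card = n + 1 → (∀ s ∈ S, s.1 ≤ J ∧ s.2 < J) → ∀ x,
    (∀ s ∈ S, ∀ s' ∈ S, s.2 ≠ s'.2 → 1 / ((J : ℝ) + 1) ≤ dist (T^[s.2] x) (T^[s'.2] x)) →
    ∃ s ∈ S, ¬ ∃ c ∈ P, (c : ℝ) ≤ u (s.1, T^[s.2] x) ∧ u (s.1, T^[s.2] x) ≤ c + w

theorem exists_good_one (T : X → X) (hT : Continuous T) {u : ℕ × X → ℝ} (hu : Continuous u)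
    (J : ℕ) (P : Finset ℚ) (S : Finset (ℕ × ℕ))
    (hgen : ∀ x : X, (∀ s ∈ S, ∀ s' ∈ S, s.2 ≠ s'.2 → T^[s.2] x ≠ T^[s'.2] x) →
        ∃ s ∈ S, ∀ q : ℚ, u (s.1, T^[s.2] x) ≠ q) :
    ∃ r : ℝ, 0 < r ∧ ∀ x,
    (∀ s ∈ S, ∀ s' ∈ S, s.2 ≠ s'.2 → 1 / ((J : ℝ) + 1) ≤ dist (T^[s.2] x) (T^[s'.2] x)) →
    ∃ s ∈ S, ∀ c ∈ P, r < |u (s.1, T^[s.2] x) - c| := by
  set K : Set X := {x | ∀ s ∈ S, ∀ s' ∈ S, s.2 ≠ s'.2 →
    1 / ((J : ℝ) + 1) ≤ dist (T^[s.2] x) (T^[s'.2] x)} with hK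
  have hKc : IsClosed K := by
    have h1 : K = ⋂ s ∈ S, ⋂ s' ∈ S, {x : X | s.2 ≠ s'.2 →
        1 / ((J : ℝ) + 1) ≤ dist (T^[s.2] x) (T^[s'.2] x)} := by
      ext x; simp [hK]
    rw [h1]
    refine isClosed_biInter fun s _ => isClosed_biInter fun s' _ => ?_
    by_cases hss : s.2 = s'.2
    · have : {x : X | s.2 ≠ s'.2 → 1 / ((J : ℝ) + 1) ≤ dist (T^[s.2] x) (T^[s'.2] x)} = Set.univ := by
        ext p; simp [hss]
      rw [this]; exact isClosed_univ
    · have : {x : X | s.2 ≠ s'.2 → 1 / ((J : ℝ) + 1) ≤ dist (T^[s.2] x) (T^[s'.2] x)} =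
          {x : X | 1 / ((J : ℝ) + 1) ≤ dist (T^[s.2] x) (T^[s'.2] x)} := by
        ext p; simp [hss]
      rw [this]
      exact isClosed_le continuous_const ((hT.iterate _).dist (hT.iterate _))
  have hKcomp : IsCompact K := hKc.isCompact
  have key : ∃ r : ℝ, 0 < r ∧ ∀ x ∈ K, ∃ s ∈ S, ∀ c ∈ P, r < |u (s.1, T^[s.2] x) - c| := by
    refine IsCompact.induction_on (p := fun A : Set X => ∃ r : ℝ, 0 < r ∧ ∀ x ∈ A, ∃ s ∈ S, ∀ c ∈ P,
      r < |u (s.1, T^[s.2] x) - c|) hKcomp ⟨1, one_pos, fun x hx => hx.elim⟩ ?_ ?_ ?_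
    · rintro A B hAB ⟨r, hr, h⟩
      exact ⟨r, hr, fun x hx => h x (hAB hx)⟩
    · rintro A B ⟨r, hr, h⟩ ⟨r', hr', h'⟩
      refine ⟨min r r', lt_min hr hr', ?_⟩
      rintro x (hx | hx)
      · obtain ⟨s, hs, h1⟩ := h x hx
        exact ⟨s, hs, fun c hc => (min_le_left _ _).trans_lt (h1 c hc)⟩
      · obtain ⟨s, hs, h1⟩ := h' x hx
        exact ⟨s, hs, fun c hc => (min_le_right _ _).trans_lt (h1 c hc)⟩
    · intro x hx
      obtain ⟨s, hs, h1⟩ := hgen x (fun s hs s' hs' hss => by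
        have h2 := hx s hs s' hs' hss
        have h3 : (0 : ℝ) < 1 / ((J : ℝ) + 1) := by positivity
        exact dist_pos.1 (h3.trans_le h2))
      have h2 : ∃ r : ℝ, 0 < r ∧ ∀ c ∈ P, r < |u (s.1, T^[s.2] x) - c| := by
        clear hx hgen
        induction P using Finset.induction_on with
        | empty => exact ⟨1, one_pos, fun c hc => absurd hc (Finset.notMem_empty c)⟩
        | insert c P _ ih =>
          obtain ⟨r, hr, h⟩ := ih
          have h3 : 0 < |u (s.1, T^[s.2] x) - c| := abs_pos.2 (sub_ne_zero.2 (h1 c))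
          refine ⟨min r (|u (s.1, T^[s.2] x) - c| / 2), lt_min hr (by positivity), ?_⟩
          intro c' hc'
          rcases Finset.mem_insert.1 hc' with rfl | hc'
          · exact (min_le_right _ _).trans_lt (by linarith)
          · exact (min_le_left _ _).trans_lt (h c' hc')
      obtain ⟨r, hr, h3⟩ := h2
      refine ⟨{y | ∀ c ∈ P, r < |u (s.1, T^[s.2] y) - c|}, ?_, r, hr, fun y hy => ⟨s, hs, hy⟩⟩
      apply mem_nhdsWithin_of_mem_nhds
      refine IsOpen.mem_nhds ?_ (show x ∈ {y : X | ∀ c ∈ P, r < |u (s.1, T^[s.2] y) - c|} from h3)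
      have h4 : {y : X | ∀ c ∈ P, r < |u (s.1, T^[s.2] y) - c|} =
          ⋂ c ∈ P, {y : X | r < |u (s.1, T^[s.2] y) - c|} := by
        ext y; simp
      rw [h4]
      refine isOpen_biInter_finset fun c _ => ?_
      refine isOpen_lt continuous_const ?_
      exact ((hu.comp (continuous_const.prodMk (hT.iterate _))).sub continuous_const).abs
  exact key

theorem exists_ch (T : X → X) (hT : Continuous T) {n : ℕ} {u : ℕ × X → ℝ} (hu : Continuous u)
    (hgen : ∀ S : Finset (ℕ × ℕ), S.card = n + 1 → ∀ x : X,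
      (∀ s ∈ S, ∀ s' ∈ S, s.2 ≠ s'.2 → T^[s.2] x ≠ T^[s'.2] x) →
        ∃ s ∈ S, ∀ q : ℚ, u (s.1, T^[s.2] x) ≠ q) (J : ℕ) (P : Finset ℚ) :
    ∃ c : ℚ, 0 < c ∧ ∀ w : ℚ, w ≤ c → Good T n u J P w := by
  classical
  set F : Finset (Finset (ℕ × ℕ)) := ((Finset.range (J + 1) ×ˢ Finset.range J).powersetCard (n + 1))
    with hF
  have h1 : ∀ G : Finset (Finset (ℕ × ℕ)), (∀ S ∈ G, S.card = n + 1) →
      ∃ r : ℝ, 0 < r ∧ ∀ S ∈ G, ∀ x,
      (∀ s ∈ S, ∀ s' ∈ S, s.2 ≠ s'.2 → 1 / ((J : ℝ) + 1) ≤ dist (T^[s.2] x) (T^[s'.2] x)) →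
      ∃ s ∈ S, ∀ c ∈ P, r < |u (s.1, T^[s.2] x) - c| := by
    intro G
    induction G using Finset.induction_on with
    | empty => exact fun _ => ⟨1, one_pos, fun S hS => absurd hS (Finset.notMem_empty S)⟩
    | insert S G _ ih =>
      intro hG
      obtain ⟨r, hr, h⟩ := ih (fun S hS => hG S (Finset.mem_insert_of_mem hS))
      obtain ⟨r', hr', h'⟩ := exists_good_one T hT hu J P S
        (fun x hx => hgen S (hG S (Finset.mem_insert_self _ _)) x hx)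
      refine ⟨min r r', lt_min hr hr', ?_⟩
      intro S' hS' x hx
      rcases Finset.mem_insert.1 hS' with rfl | hS'
      · obtain ⟨s, hs, h1⟩ := h' x hx
        exact ⟨s, hs, fun c hc => (min_le_right _ _).trans_lt (h1 c hc)⟩
      · obtain ⟨s, hs, h1⟩ := h S' hS' x hx
        exact ⟨s, hs, fun c hc => (min_le_left _ _).trans_lt (h1 c hc)⟩
  obtain ⟨r, hr, h⟩ := h1 F (fun S hS => (Finset.mem_powersetCard.1 hS).2)
  obtain ⟨c, hc0, hcr⟩ := exists_rat_btwn hr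
  refine ⟨c, by exact_mod_cast hc0, fun w hw S hS hSJ x hx => ?_⟩
  have hSF : S ∈ F := by
    refine Finset.mem_powersetCard.2 ⟨fun s hs => ?_, hS⟩
    rw [Finset.mem_product, Finset.mem_range, Finset.mem_range]
    exact ⟨Nat.lt_succ_of_le (hSJ s hs).1, (hSJ s hs).2⟩
  obtain ⟨s, hs, h2⟩ := h S hSF x hx
  refine ⟨s, hs, ?_⟩
  rintro ⟨c', hc', h3, h4⟩
  have h5 := h2 c' hc'
  have h6 : (w : ℝ) ≤ c := by exact_mod_cast hw
  rw [abs_of_nonneg (by linarith)] at h5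
  linarith

theorem exists_data (T : X ≃ₜ X) {n : ℕ} (hdim : DimLE X n) :
    ∃ (f : ℕ → X → ℝ) (bad : ℕ → ℕ → Set X), (∀ j, Continuous (f j)) ∧
      (∀ j x, 0 ≤ f j x ∧ f j x ≤ 1) ∧ (∀ x y, x ≠ y → ∃ j, f j x ≠ f j y) ∧
      (∀ J j, IsClosed (bad J j)) ∧
      (∀ J j x, x ∉ bad J j → ∃ k : ℕ, k ≤ 2 ^ J ∧ f j x = k / 2 ^ J) ∧
      (∀ J, ∀ S : Finset (ℕ × ℕ), S.card = n + 1 → (∀ s ∈ S, s.1 ≤ J ∧ s.2 < J) → ∀ x,
        (∀ s ∈ S, ∀ s' ∈ S, s.2 ≠ s'.2 → 1 / ((J : ℝ) + 1) ≤ dist (T^[s.2] x) (T^[s'.2] x)) →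
        ∃ s ∈ S, T^[s.2] x ∉ bad J s.1) := by
  classical
  rcases isEmpty_or_nonempty X with hX | hX
  · exact ⟨fun _ _ => 0, fun _ _ => ∅, fun _ => continuous_const, fun _ _ => ⟨le_rfl, zero_le_one⟩,
      fun x => (hX.false x).elim, fun _ _ => isClosed_empty, fun _ _ x => (hX.false x).elim,
      fun _ _ _ _ x => (hX.false x).elim⟩
  obtain ⟨τ, hτ⟩ := exists_homeo_pow T
  obtain ⟨v, hv⟩ := exists_sep X
  obtain ⟨u, huv, hu⟩ := exists_generic hdim τ v (show (0 : ℝ) < 1 / 8 by norm_num)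
  have hucl : ∀ p, |u p - v p| < 1 / 8 := by
    intro p
    have h1 := BoundedContinuousFunction.dist_coe_le_dist (f := u) (g := v) p
    rw [Real.dist_eq] at h1
    exact h1.trans_lt huv
  have hgen : ∀ S : Finset (ℕ × ℕ), S.card = n + 1 → ∀ x : X,
      (∀ s ∈ S, ∀ s' ∈ S, s.2 ≠ s'.2 → T^[s.2] x ≠ T^[s'.2] x) →
        ∃ s ∈ S, ∀ q : ℚ, u (s.1, T^[s.2] x) ≠ q := by
    intro S hS x hx
    have := hu S hS x (fun s hs s' hs' hss => by rw [hτ, hτ]; exact hx s hs s' hs' hss)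
    simpa only [hτ] using this
  choose ch hch0 hch using fun J P => exists_ch T T.continuous u.continuous hgen J P
  obtain ⟨P, w, θ, hw, hwch, hθc, hθ01, hθ0, hθ1, hθk⟩ := exists_stair ch hch0
  refine ⟨fun j x => θ (u (j, x)), fun J j => {x | ∃ c ∈ P J, (c : ℝ) ≤ u (j, x) ∧
    u (j, x) ≤ c + w J}, ?_, ?_, ?_, ?_, ?_, ?_⟩
  · intro j
    exact hθc.comp (u.continuous.comp (continuous_const.prodMk continuous_id))
  · intro j x
    exact hθ01 _
  · intro x y hxy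
    obtain ⟨j, h1, h2⟩ := hv x y hxy
    refine ⟨j, ?_⟩
    have h3 := abs_lt.1 (hucl (j, x))
    have h4 := abs_lt.1 (hucl (j, y))
    have h5 : u (j, x) < 3 / 8 := by linarith [h3.2]
    have h6 : u (j, y) > 1 / 2 := by linarith [h4.1]
    show θ (u (j, x)) ≠ θ (u (j, y))
    rw [hθ0 _ h5, hθ1 _ h6]
    exact zero_ne_one
  · intro J j
    have h1 : {x : X | ∃ c ∈ P J, (c : ℝ) ≤ u (j, x) ∧ u (j, x) ≤ c + w J} =
        ⋃ c ∈ P J, {x : X | (c : ℝ) ≤ u (j, x) ∧ u (j, x) ≤ c + w J} := by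
      ext x
      simp only [Set.mem_iUnion, exists_prop]
      exact Iff.rfl
    show IsClosed {x : X | ∃ c ∈ P J, (c : ℝ) ≤ u (j, x) ∧ u (j, x) ≤ c + w J}
    rw [h1]
    refine Set.Finite.isClosed_biUnion (Finset.finite_toSet _) fun c _ => ?_
    have hcj : Continuous fun x : X => u (j, x) :=
      u.continuous.comp (continuous_const.prodMk continuous_id)
    exact (isClosed_le continuous_const hcj).inter (isClosed_le hcj continuous_const)
  · intro J j x hx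
    exact hθk J _ hx
  · intro J S hS hSJ x hx
    exact hch J (P J) (w J) (hwch J) S hS hSJ x hx

end H3.MD
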