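import Mathlib

/-!
# Definitions: mean dimension, rate distortion dimension, the double variational principle

(`MP_9896a2_an`.)
-/

set_option autoImplicit false

open MeasureTheory Filter Topology
open scoped ENNReal

namespace H3.MD

section Top

variable {X : Type*} [TopologicalSpace X]

/-- `α` is a finite open cover of `X`. -/
def IsFOC (α : Set (Set X)) : Prop := α.Finite ∧ (∀ U ∈ α, IsOpen U) ∧ ⋃₀ α = Set.univ

/-- `ord β = max_x #{U ∈ β : x ∈ U} - 1`. -/
noncomputable def ord (β : Set (Set X)) : ℕ := (⨆ x : X, {U | U ∈ β ∧ x ∈ U}.ncard) - 1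

/-- `β` refines `α`. -/
def Refines (β α : Set (Set X)) : Prop := ∀ V ∈ β, ∃ U ∈ α, V ⊆ U

/-- `D(α)`: the minimum of `ord β` over the finite open covers `β` refining `α`. -/
noncomputable def Dcov (α : Set (Set X)) : ℕ :=
  sInf {m | ∃ β : Set (Set X), IsFOC β ∧ Refines β α ∧ ord β = m}

/-- `X` has Lebesgue covering dimension at most `n`. -/
def DimLE (X : Type*) [TopologicalSpace X] (n : ℕ) : Prop :=
  ∀ α : Set (Set X), IsFOC α → ∃ β : Set (Set X), IsFOC β ∧ Refines β α ∧ ord β ≤ n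

/-- `α ∨ T⁻¹ α ∨ … ∨ T^{-(N-1)} α`. -/
def joinN (T : X → X) (α : Set (Set X)) (N : ℕ) : Set (Set X) :=
  {W | ∃ U : Fin N → Set X, (∀ k, U k ∈ α) ∧ W = ⋂ k : Fin N, (T^[(k : ℕ)]) ⁻¹' (U k)}

/-- Mean dimension. (The limit of `D(α^N)/N` exists by subadditivity; it is written as a `limsup`.) -/
noncomputable def mdim (T : X → X) : ℝ≥0∞ :=
  ⨆ (α : Set (Set X)) (_ : IsFOC α),
    limsup (fun N : ℕ => (Dcov (joinN T α N) : ℝ≥0∞) / N) atTop

/-- A metric on `X` compatible with its topology. -/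
structure CompatMetric (X : Type*) [TopologicalSpace X] where
  d : X → X → ℝ
  d_self : ∀ x, d x x = 0
  eq_of_d : ∀ x y, d x y = 0 → x = y
  d_comm : ∀ x y, d x y = d y x
  triangle : ∀ x y z, d x z ≤ d x y + d y z
  isOpen_iff : ∀ s : Set X, IsOpen s ↔ ∀ x ∈ s, ∃ r : ℝ, 0 < r ∧ ∀ y, d x y < r → y ∈ s

end Top

section Meas

/-- Mutual information (in nats) of two random variables with joint law `π`. -/
noncomputable def mutualInfo {A B : Type*} [MeasurableSpace A] [MeasurableSpace B]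
    (π : Measure (A × B)) : ℝ≥0∞ :=
  InformationTheory.klDiv π (π.fst.prod π.snd)

variable {X : Type*} [MeasurableSpace X]

/-- The rate distortion function `R(d,μ,ε)` (in bits): the infimum of `I(ξ;η)/N` over `N ≥ 1` and
random variables `ξ` with law `μ` and `η = (η_0,…,η_{N-1}) ∈ X^N` (with joint law `π`) such that
`E (1/N) ∑_{k<N} d(T^k ξ, η_k) < ε`. -/
noncomputable def rate (T : X → X) (d : X → X → ℝ) (μ : Measure X) (ε : ℝ) : ℝ≥0∞ :=
  ⨅ (N : ℕ) (_ : 0 < N) (π : Measure (X × (Fin N → X))) (_ : IsProbabilityMeasure π)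
    (_ : π.fst = μ) (_ : ∫ p, (1 / (N : ℝ)) * ∑ k : Fin N, d (T^[(k : ℕ)] p.1) (p.2 k) ∂π < ε),
      mutualInfo π / ENNReal.ofReal (Real.log 2) / N

/-- Upper rate distortion dimension. -/
noncomputable def rdimU (T : X → X) (d : X → X → ℝ) (μ : Measure X) : ℝ≥0∞ :=
  limsup (fun ε : ℝ => rate T d μ ε / ENNReal.ofReal (Real.logb 2 (1 / ε))) (𝓝[>] 0)

/-- Lower rate distortion dimension. -/
noncomputable def rdimL (T : X → X) (d : X → X → ℝ) (μ : Measure X) : ℝ≥0∞ :=
  liminf (fun ε : ℝ => rate T d μ ε / ENNReal.ofReal (Real.logb 2 (1 / ε))) (𝓝[>] 0)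

/-- `sup` of the upper rate distortion dimension over the invariant probability measures. -/
noncomputable def supU (T : X → X) (d : X → X → ℝ) : ℝ≥0∞ :=
  ⨆ (μ : Measure X) (_ : IsProbabilityMeasure μ) (_ : MeasurePreserving T μ μ), rdimU T d μ

/-- `sup` of the lower rate distortion dimension over the invariant probability measures. -/
noncomputable def supL (T : X → X) (d : X → X → ℝ) : ℝ≥0∞ :=
  ⨆ (μ : Measure X) (_ : IsProbabilityMeasure μ) (_ : MeasurePreserving T μ μ), rdimL T d μ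

end Meas

/-- The double variational principle (Q1) for the system `(X, T)`: both infima over the compatible
metrics are attained and equal to the mean dimension. -/
def DoubleVP {X : Type*} [TopologicalSpace X] [MeasurableSpace X] (T : X → X) : Prop :=
  IsLeast (Set.range fun d : CompatMetric X => supU T d.d) (mdim T) ∧
  IsLeast (Set.range fun d : CompatMetric X => supL T d.d) (mdim T)

section Lemmas

variable {X : Type*} [TopologicalSpace X]

omit [TopologicalSpace X] in
theorem ncard_le_of_ord {β : Set (Set X)} (hβ : β.Finite) {n : ℕ} (h : ord β ≤ n) (x : X) :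
    {U | U ∈ β ∧ x ∈ U}.ncard ≤ n + 1 := by
  have hb : BddAbove (Set.range fun x : X => {U | U ∈ β ∧ x ∈ U}.ncard) := by
    refine ⟨β.ncard, ?_⟩
    rintro _ ⟨y, rfl⟩
    exact Set.ncard_le_ncard (fun U hU => hU.1) hβ
  have h1 := le_ciSup hb x
  have h2 : (⨆ x : X, {U | U ∈ β ∧ x ∈ U}.ncard) ≤ n + 1 := by
    unfold ord at h; omega
  exact h1.trans h2

theorem isFOC_joinN {T : X → X} (hT : Continuous T) {α : Set (Set X)} (hα : IsFOC α) (N : ℕ) :
    IsFOC (joinN T α N) := by
  refine ⟨?_, ?_, ?_⟩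
  · have h1 : (Set.univ.pi (fun _ : Fin N => α)).Finite := Set.Finite.pi' (fun _ => hα.1) |>.subset
      (fun U hU k => hU k (Set.mem_univ _))
    have h2 : joinN T α N ⊆
        (fun U : Fin N → Set X => ⋂ k : Fin N, (T^[(k : ℕ)]) ⁻¹' (U k)) '' (Set.univ.pi fun _ => α) := by
      rintro W ⟨U, hU, rfl⟩
      exact ⟨U, fun k _ => hU k, rfl⟩
    exact (h1.image _).subset h2
  · rintro W ⟨U, hU, rfl⟩
    exact isOpen_iInter_of_finite fun k => (hα.2.1 _ (hU k)).preimage (hT.iterate _)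
  · rw [Set.eq_univ_iff_forall]
    intro x
    have h1 : ∀ k : Fin N, ∃ U ∈ α, T^[(k : ℕ)] x ∈ U := by
      intro k
      have : T^[(k : ℕ)] x ∈ ⋃₀ α := by rw [hα.2.2]; exact Set.mem_univ _
      exact this
    choose U hU hxU using h1
    exact ⟨_, ⟨U, hU, rfl⟩, Set.mem_iInter.2 hxU⟩

/-- a finite-dimensional system has mean dimension zero -/
theorem mdim_eq_zero {T : X → X} (hT : Continuous T) {n : ℕ} (hn : DimLE X n) : mdim T = 0 := by
  unfold mdim
  simp only [ENNReal.iSup_eq_zero]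
  intro α hα
  have hD : ∀ N, Dcov (joinN T α N) ≤ n := by
    intro N
    obtain ⟨β, h1, h2, h3⟩ := hn _ (isFOC_joinN hT hα N)
    have h4 : Dcov (joinN T α N) ≤ ord β := by
      unfold Dcov
      exact Nat.sInf_le ⟨β, h1, h2, rfl⟩
    exact h4.trans h3
  apply Tendsto.limsup_eq
  have h0 : Tendsto (fun N : ℕ => (n : ℝ≥0∞) / N) atTop (𝓝 0) := by
    simpa using ENNReal.Tendsto.const_div (a := (n : ℝ≥0∞)) ENNReal.tendsto_nat_nhds_top
      (Or.inr (ENNReal.natCast_ne_top n))
  refine tendsto_of_tendsto_of_tendsto_of_le_of_le tendsto_const_nhds h0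
    (fun _ => bot_le) ?_
  intro N
  exact ENNReal.div_le_div_right (by exact_mod_cast hD N) _

end Lemmas

end H3.MD
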