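import Mathlib

/-!
# General position
-/

set_option autoImplicit false

namespace H3.MD

open MvPolynomial

/-- General position of finitely many points of `ℝ^S` with respect to a point `c`, in a box:
any `card S` of them are linearly independent after translation by `-c`. -/
theorem genpos {S ι : Type*} [Fintype S] [DecidableEq S] [Fintype ι] [DecidableEq ι]
    (c : S → ℝ) (lo hi : ι → S → ℝ) (hlh : ∀ i s, lo i s < hi i s) :
    ∃ p : ι → S → ℝ, (∀ i s, lo i s < p i s ∧ p i s < hi i s) ∧
      ∀ a : ι → ℝ, (Finset.univ.filter (fun i => a i ≠ 0)).card ≤ Fintype.card S →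
        (∀ s, ∑ i, a i * (p i s - c s) = 0) → ∀ i, a i = 0 := by
  classical
  set box : (ι ⊕ S) × S → Set ℝ := fun w =>
    Sum.elim (fun i => Set.Ioo (lo i w.2) (hi i w.2)) (fun _ => Set.univ) w.1 with hbox
  have hinf : ∀ w, (box w).Infinite := by
    rintro ⟨i | s', s⟩
    · exact Set.Ioo_infinite (hlh i s)
    · exact Set.infinite_univ
  set M : (S ↪ ι ⊕ S) → Matrix S S (MvPolynomial ((ι ⊕ S) × S) ℝ) := fun g =>
    Matrix.of fun s s' => X (g s, s') - C (c s') with hM
  set P : MvPolynomial ((ι ⊕ S) × S) ℝ := ∏ g : S ↪ ι ⊕ S, (M g).det with hP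
  have hP0 : P ≠ 0 := by
    rw [hP, Finset.prod_ne_zero_iff]
    intro g _ h0
    -- evaluate at a special point
    set y : (ι ⊕ S) × S → ℝ := fun w => c w.2 + if w.1 = g w.2 then 1 else 0 with hy
    have h1 : eval y (M g).det = 1 := by
      rw [RingHom.map_det]
      have h2 : (eval y).mapMatrix (M g) = 1 := by
        ext s s'
        simp only [RingHom.mapMatrix_apply, Matrix.map_apply, hM, Matrix.of_apply, map_sub,
          eval_X, eval_C, hy, Matrix.one_apply]
        by_cases hss : s = s'
        · subst hss; simp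
        · have : g s ≠ g s' := fun h => hss (g.injective h)
          simp [hss, this]
      rw [h2, Matrix.det_one]
    rw [h0, map_zero] at h1
    exact zero_ne_one h1
  obtain ⟨x, hx, hxP⟩ : ∃ x ∈ Set.pi Set.univ box, eval x P ≠ 0 := by
    by_contra hcon
    push Not at hcon
    exact hP0 (funext_set box hinf (q := 0) (fun x hx => by rw [hcon x hx, map_zero]))
  refine ⟨fun i s => x (Sum.inl i, s), fun i s => ?_, ?_⟩
  · have := hx (Sum.inl i, s) (Set.mem_univ _)
    simpa [hbox] using this
  · intro a hcard hsum
    set F := Finset.univ.filter (fun i => a i ≠ 0) with hF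
    have hFc : Fintype.card F ≤ Fintype.card S := by rwa [Fintype.card_coe]
    obtain ⟨e⟩ := Function.Embedding.nonempty_of_card_le hFc
    -- the embedding
    set g0 : S → ι ⊕ S := fun s => if h : ∃ f : F, e f = s then Sum.inl (h.choose : ι) else Sum.inr s
      with hg0
    have hg1 : ∀ f : F, g0 (e f) = Sum.inl (f : ι) := by
      intro f
      have h : ∃ f' : F, e f' = e f := ⟨f, rfl⟩
      have h2 : h.choose = f := e.injective h.choose_spec
      simp only [hg0, dif_pos h, h2]
    have hg2 : ∀ s, (¬ ∃ f : F, e f = s) → g0 s = Sum.inr s := by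
      intro s h; simp only [hg0, dif_neg h]
    have hginj : Function.Injective g0 := by
      intro s s' h
      by_cases h1 : ∃ f : F, e f = s
      · by_cases h2 : ∃ f : F, e f = s'
        · obtain ⟨f, rfl⟩ := h1
          obtain ⟨f', rfl⟩ := h2
          rw [hg1, hg1] at h
          have : f = f' := Subtype.ext (Sum.inl.inj h)
          rw [this]
        · obtain ⟨f, rfl⟩ := h1
          rw [hg1, hg2 _ h2] at h
          cases h
      · by_cases h2 : ∃ f : F, e f = s'
        · obtain ⟨f', rfl⟩ := h2
          rw [hg1, hg2 _ h1] at h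
          cases h
        · rw [hg2 _ h1, hg2 _ h2] at h
          exact Sum.inr.inj h
    set g : S ↪ ι ⊕ S := ⟨g0, hginj⟩ with hg
    have hdet : eval x (M g).det ≠ 0 := by
      have h1 : eval x P = ∏ g : S ↪ ι ⊕ S, eval x (M g).det := by rw [hP, map_prod]
      rw [h1, Finset.prod_ne_zero_iff] at hxP
      exact hxP g (Finset.mem_univ _)
    rw [RingHom.map_det] at hdet
    set N := (eval x).mapMatrix (M g) with hN
    set b : S → ℝ := fun s => Sum.elim a (fun _ => 0) (g0 s) with hb
    have hb1 : Matrix.vecMul b N = 0 := by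
      funext s'
      rw [Matrix.vecMul, dotProduct, Pi.zero_apply]
      have h1 : ∑ f : F, a f * (x (Sum.inl (f : ι), s') - c s') = ∑ s, b s * N s s' := by
        refine Fintype.sum_of_injective e e.injective _ _ ?_ ?_
        · intro s hs
          have h2 : ¬ ∃ f : F, e f = s := fun ⟨f, hf⟩ => hs ⟨f, hf⟩
          simp only [hb, hg2 s h2, Sum.elim_inr, zero_mul]
        · intro f
          simp only [hb, hg1, Sum.elim_inl, hN, RingHom.mapMatrix_apply, Matrix.map_apply, hM,
            Matrix.of_apply, map_sub, eval_X, eval_C, hg, Function.Embedding.coeFn_mk]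
      rw [← h1, ← hsum s']
      rw [Finset.sum_coe_sort F (fun i => a i * (x (Sum.inl i, s') - c s'))]
      apply Finset.sum_subset (Finset.subset_univ _)
      intro i _ hi
      have : a i = 0 := by
        by_contra h; exact hi (Finset.mem_filter.2 ⟨Finset.mem_univ _, h⟩)
      rw [this, zero_mul]
    have hb0 : b = 0 := Matrix.eq_zero_of_vecMul_eq_zero hdet hb1
    intro i
    by_contra hi
    have h1 : i ∈ F := Finset.mem_filter.2 ⟨Finset.mem_univ _, hi⟩
    have h2 := congrFun hb0 (e ⟨i, h1⟩)
    simp only [hb, hg1, Sum.elim_inl, Pi.zero_apply] at h2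
    exact hi h2

end H3.MD
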