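import Pool.Agent.Lib_helper3.MD.Pert

/-!
# Generic sequences of functions
-/

set_option autoImplicit false

open Topology

namespace H3.MD

open scoped BoundedContinuousFunction

variable {X : Type*} [MetricSpace X] [CompactSpace X]

theorem isOpen_miss (τ : ℕ → X ≃ₜ X) (S : Finset (ℕ × ℕ)) {A : Set X} (hA : IsClosed A)
    (c : ℕ × ℕ → ℝ) :
    IsOpen {u : (ℕ × X) →ᵇ ℝ | ∀ x ∈ A, ∃ s ∈ S, u (s.1, τ s.2 x) ≠ c s} := by
  set K : Set (X × ((ℕ × X) →ᵇ ℝ)) := {p | p.1 ∈ A ∧ ∀ s ∈ S, p.2 (s.1, τ s.2 p.1) = c s} with hKdef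
  have hK : IsClosed K := by
    have h1 : K = (Prod.fst ⁻¹' A) ∩
        ⋂ s ∈ S, {p : X × ((ℕ × X) →ᵇ ℝ) | p.2 (s.1, τ s.2 p.1) = c s} := by
      apply Set.ext
      intro p
      simp only [hKdef, Set.mem_ofPred_eq, Set.mem_inter_iff, Set.mem_preimage, Set.mem_iInter]
    rw [h1]
    refine (hA.preimage continuous_fst).inter (isClosed_biInter fun s _ => ?_)
    refine isClosed_eq ?_ continuous_const
    have h2 : Continuous fun p : X × ((ℕ × X) →ᵇ ℝ) => (p.2, ((s.1, τ s.2 p.1) : ℕ × X)) :=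
      continuous_snd.prodMk (continuous_const.prodMk ((τ s.2).continuous.comp continuous_fst))
    exact continuous_eval.comp h2
  have h2 := isClosedMap_snd_of_compactSpace _ hK
  have h3 : {u : (ℕ × X) →ᵇ ℝ | ∀ x ∈ A, ∃ s ∈ S, u (s.1, τ s.2 x) ≠ c s} = (Prod.snd '' K)ᶜ := by
    apply Set.ext
    intro u
    rw [Set.mem_compl_iff]
    constructor
    · rintro h ⟨⟨x, u'⟩, hx, rfl⟩
      obtain ⟨s, hs, hne⟩ := h x hx.1
      exact hne (hx.2 s hs)
    · intro h x hx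
      by_contra hcon
      refine h ⟨(x, u), ⟨hx, fun s hs => ?_⟩, rfl⟩
      by_contra hne
      exact hcon ⟨s, hs, hne⟩
  rw [h3]
  exact h2.isOpen_compl

/-- Generic sequences: if the iterates of `x` at the times of `S` are distinct, then one of the
values `u_j (T^k x)`, `(j, k) ∈ S`, is irrational, whenever `card S = n + 1`. -/
theorem exists_generic {n : ℕ} (hdim : DimLE X n) (τ : ℕ → X ≃ₜ X) (v : (ℕ × X) →ᵇ ℝ) {r : ℝ}
    (hr : 0 < r) : ∃ u : (ℕ × X) →ᵇ ℝ, dist u v < r ∧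
      ∀ S : Finset (ℕ × ℕ), S.card = n + 1 → ∀ x : X,
        (∀ s ∈ S, ∀ s' ∈ S, s.2 ≠ s'.2 → τ s.2 x ≠ τ s'.2 x) →
        ∃ s ∈ S, ∀ q : ℚ, u (s.1, τ s.2 x) ≠ q := by
  classical
  rcases isEmpty_or_nonempty X with hX | hX
  · exact ⟨v, by rw [dist_self]; exact hr, fun S _ x => (hX.false x).elim⟩
  -- the countable family of open dense sets
  set cond : Finset (ℕ × ℕ) → Set X → Prop := fun S O => S.card = n + 1 ∧
    ∀ s ∈ S, ∀ s' ∈ S, s.2 ≠ s'.2 → ∀ x ∈ O, ∀ y ∈ O, τ s.2 x ≠ τ s'.2 y with hcond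
  set A : ℕ × ℕ → Set X := fun im => Metric.closedBall (TopologicalSpace.denseSeq X im.1)
    (1 / ((im.2 : ℝ) + 1)) with hA
  set O : ℕ × ℕ → Set X := fun im => Metric.ball (TopologicalSpace.denseSeq X im.1)
    (2 / ((im.2 : ℝ) + 1)) with hO
  have hAO : ∀ im, A im ⊆ O im := by
    intro im
    refine Metric.closedBall_subset_ball ?_
    have : (0 : ℝ) < (im.2 : ℝ) + 1 := by positivity
    gcongr
    norm_num
  set ext : (Σ S : Finset (ℕ × ℕ), (S → ℚ)) → ℕ × ℕ → ℝ := fun Sc s =>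
    if h : s ∈ Sc.1 then (Sc.2 ⟨s, h⟩ : ℝ) else 0 with hext
  set G : (Σ S : Finset (ℕ × ℕ), (S → ℚ)) × (ℕ × ℕ) → Set ((ℕ × X) →ᵇ ℝ) := fun w =>
    {u | cond w.1.1 (O w.2) → ∀ x ∈ A w.2, ∃ s ∈ w.1.1, u (s.1, τ s.2 x) ≠ ext w.1 s} with hG
  have hGo : ∀ w, IsOpen (G w) := by
    intro w
    by_cases hc : cond w.1.1 (O w.2)
    · have : G w = {u | ∀ x ∈ A w.2, ∃ s ∈ w.1.1, u (s.1, τ s.2 x) ≠ ext w.1 s} := by
        ext u; simp [hG, hc]
      rw [this]
      exact isOpen_miss τ w.1.1 Metric.isClosed_closedBall _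
    · have : G w = Set.univ := by
        ext u; simp [hG, hc]
      rw [this]; exact isOpen_univ
  have hGd : ∀ w, Dense (G w) := by
    intro w
    by_cases hc : cond w.1.1 (O w.2)
    · rw [Metric.dense_iff]
      intro u η hη
      obtain ⟨u', h1, h2⟩ := perturb hdim τ w.1.1 hc.1 (A := A w.2) (O := O w.2)
        Metric.isClosed_closedBall Metric.isOpen_ball (hAO _) hc.2 (ext w.1) u (half_pos hη)
      exact ⟨u', by rw [Metric.mem_ball]; linarith, fun _ => h2⟩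
    · have : G w = Set.univ := by
        ext u; simp [hG, hc]
      rw [this]; exact dense_univ
  have hdense := dense_iInter_of_isOpen hGo hGd
  obtain ⟨u, hu1, hu2⟩ := Metric.dense_iff.1 hdense v r hr
  refine ⟨u, hu1, fun S hS x hx => ?_⟩
  by_contra hcon
  push Not at hcon
  choose! c hc using hcon
  -- a small ball around `x`
  have hW : IsOpen {p : X × X | ∀ s ∈ S, ∀ s' ∈ S, s.2 ≠ s'.2 → τ s.2 p.1 ≠ τ s'.2 p.2} := by
    have h1 : {p : X × X | ∀ s ∈ S, ∀ s' ∈ S, s.2 ≠ s'.2 → τ s.2 p.1 ≠ τ s'.2 p.2} =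
        ⋂ s ∈ S, ⋂ s' ∈ S, {p : X × X | s.2 ≠ s'.2 → τ s.2 p.1 ≠ τ s'.2 p.2} := by
      ext p; simp
    rw [h1]
    refine isOpen_biInter_finset fun s _ => isOpen_biInter_finset fun s' _ => ?_
    by_cases hss : s.2 = s'.2
    · have : {p : X × X | s.2 ≠ s'.2 → τ s.2 p.1 ≠ τ s'.2 p.2} = Set.univ := by
        ext p; simp [hss]
      rw [this]; exact isOpen_univ
    · have : {p : X × X | s.2 ≠ s'.2 → τ s.2 p.1 ≠ τ s'.2 p.2} =
          {p : X × X | τ s.2 p.1 ≠ τ s'.2 p.2} := by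
        ext p; simp [hss]
      rw [this]
      exact isOpen_ne_fun ((τ s.2).continuous.comp continuous_fst)
        ((τ s'.2).continuous.comp continuous_snd)
  obtain ⟨δ, hδ, hδW⟩ := Metric.isOpen_iff.1 hW (x, x) hx
  obtain ⟨m, hm⟩ := exists_nat_one_div_lt (show (0 : ℝ) < δ / 3 by positivity)
  obtain ⟨i, hi⟩ : ∃ i, dist x (TopologicalSpace.denseSeq X i) < 1 / ((m : ℝ) + 1) := by
    have hpos : (0 : ℝ) < 1 / ((m : ℝ) + 1) := by positivity
    obtain ⟨y, hy, i, rfl⟩ := Metric.dense_iff.1 (TopologicalSpace.denseRange_denseSeq X) x _ hpos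
    exact ⟨i, by rw [dist_comm]; exact hy⟩
  have hOx : ∀ y ∈ O (i, m), dist y x < δ := by
    intro y hy
    have h1 : dist y (TopologicalSpace.denseSeq X i) < 2 / ((m : ℝ) + 1) := hy
    have h2 : dist y x ≤ dist y (TopologicalSpace.denseSeq X i) +
      dist (TopologicalSpace.denseSeq X i) x := dist_triangle _ _ _
    rw [dist_comm (TopologicalSpace.denseSeq X i) x] at h2
    have h3 : 2 / ((m : ℝ) + 1) = 2 * (1 / ((m : ℝ) + 1)) := by ring
    rw [h3] at h1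
    linarith
  have hu3 := Set.mem_iInter.1 hu2 (⟨S, fun s => c s⟩, (i, m))
  have hcnd : cond S (O (i, m)) := by
    refine ⟨hS, fun s hs s' hs' hss y hy z hz => ?_⟩
    have h1 : ((y, z) : X × X) ∈ Metric.ball (x, x) δ := by
      rw [Metric.mem_ball, Prod.dist_eq]
      exact max_lt (hOx y hy) (hOx z hz)
    exact hδW h1 s hs s' hs' hss
  obtain ⟨s, hs, hne⟩ := hu3 hcnd x (by
    rw [hA, Metric.mem_closedBall]
    exact hi.le)
  apply hne
  simp only [hext, dif_pos hs]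
  exact hc s hs

end H3.MD
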