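import Pool.Agent.Lib_helper3.MD.Defs

/-!
# The metric
-/

set_option autoImplicit false

open Topology

namespace H3.MD

/-- the weights -/
noncomputable def wt (j : ℕ) : ℝ := (1 / 2) ^ ((j + 1) ^ 4)

theorem wt_pos (j : ℕ) : 0 < wt j := by unfold wt; positivity

theorem wt_shift_le (J j : ℕ) : wt (j + (J + 1)) ≤ (1 / 2) ^ ((J + 2) ^ 4) * (1 / 2) ^ j := by
  unfold wt
  rw [← pow_add]
  apply pow_le_pow_of_le_one (by norm_num) (by norm_num)
  have h1 : j + (J + 1) + 1 = (J + 2) + j := by ring
  rw [h1]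
  have h2 : (J + 2) ^ 4 + j ≤ (J + 2 + j) ^ 4 := by
    have h3 : (J + 2 + j) ^ 4 = (J + 2) ^ 4 + 4 * (J + 2) ^ 3 * j + 6 * (J + 2) ^ 2 * j ^ 2 +
      4 * (J + 2) * j ^ 3 + j ^ 4 := by ring
    have h4 : j ≤ 4 * (J + 2) ^ 3 * j := by
      have : 1 ≤ 4 * (J + 2) ^ 3 := by
        have := Nat.one_le_pow 3 (J + 2) (by omega)
        omega
      nlinarith
    rw [h3]
    have := Nat.zero_le (6 * (J + 2) ^ 2 * j ^ 2)
    have := Nat.zero_le (4 * (J + 2) * j ^ 3)
    have := Nat.zero_le (j ^ 4)
    omega
  exact h2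

theorem wt_le (j : ℕ) : wt j ≤ (1 / 2) ^ (j + 1) := by
  unfold wt
  apply pow_le_pow_of_le_one (by norm_num) (by norm_num)
  exact Nat.le_self_pow (by norm_num) _

theorem summable_half : Summable fun j : ℕ => ((1 : ℝ) / 2) ^ j :=
  summable_geometric_of_lt_one (by norm_num) (by norm_num)

theorem summable_half_succ : Summable fun j : ℕ => ((1 : ℝ) / 2) ^ (j + 1) :=
  (summable_nat_add_iff 1).2 summable_half

theorem summable_wt : Summable wt :=
  Summable.of_nonneg_of_le (fun j => (wt_pos j).le) wt_le summable_half_succ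

theorem tsum_wt_le : ∑' j, wt j ≤ 1 := by
  refine (summable_wt.tsum_le_tsum wt_le summable_half_succ).trans ?_
  have h1 : ∑' j : ℕ, ((1 : ℝ) / 2) ^ (j + 1) = (∑' j : ℕ, ((1 : ℝ) / 2) ^ j) * (1 / 2) := by
    rw [← tsum_mul_right]
    exact tsum_congr fun j => pow_succ _ _
  rw [h1, tsum_geometric_two]
  norm_num

theorem tsum_tail_le (J : ℕ) : ∑' j, wt (j + (J + 1)) ≤ 2 * (1 / 2) ^ ((J + 2) ^ 4) := by
  have h1 : Summable fun j => wt (j + (J + 1)) := (summable_nat_add_iff (J + 1)).2 summable_wt
  refine (h1.tsum_le_tsum (wt_shift_le J) (summable_half.mul_left _)).trans ?_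
  rw [tsum_mul_left, tsum_geometric_two]
  linarith

section

variable {X : Type*} (f : ℕ → X → ℝ)

/-- the metric attached to a sequence of functions -/
noncomputable def dd (x y : X) : ℝ := ∑' j, wt j * |f j x - f j y|

variable {f} (h01 : ∀ j x, 0 ≤ f j x ∧ f j x ≤ 1)

include h01

theorem abs_le_one' (j : ℕ) (x y : X) : |f j x - f j y| ≤ 1 := by
  rw [abs_le]
  have h1 := h01 j x
  have h2 := h01 j y
  constructor <;> linarith [h1.1, h1.2, h2.1, h2.2]

theorem term_le (j : ℕ) (x y : X) : wt j * |f j x - f j y| ≤ wt j := by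
  have h1 := mul_le_mul_of_nonneg_left (abs_le_one' h01 j x y) (wt_pos j).le
  rw [mul_one] at h1
  exact h1

omit h01 in
theorem term_nonneg (j : ℕ) (x y : X) : 0 ≤ wt j * |f j x - f j y| :=
  mul_nonneg (wt_pos j).le (abs_nonneg _)

theorem summable_term (x y : X) : Summable fun j => wt j * |f j x - f j y| :=
  Summable.of_nonneg_of_le (fun j => term_nonneg j x y) (fun j => term_le h01 j x y) summable_wt

theorem dd_triangle (x y z : X) : dd f x z ≤ dd f x y + dd f y z := by
  unfold dd
  rw [← (summable_term h01 x y).tsum_add (summable_term h01 y z)]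
  refine (summable_term h01 x z).tsum_le_tsum (fun j => ?_)
    ((summable_term h01 x y).add (summable_term h01 y z))
  rw [← mul_add]
  refine mul_le_mul_of_nonneg_left ?_ (wt_pos j).le
  exact abs_sub_le _ _ _

theorem dd_pos (hsep : ∀ x y, x ≠ y → ∃ j, f j x ≠ f j y) {x y : X} (hxy : x ≠ y) :
    0 < dd f x y := by
  obtain ⟨j, hj⟩ := hsep x y hxy
  have h1 : 0 < wt j * |f j x - f j y| := mul_pos (wt_pos j) (abs_pos.2 (sub_ne_zero.2 hj))
  exact h1.trans_le ((summable_term h01 x y).le_tsum j (fun i _ => term_nonneg i x y))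

theorem dd_le_of (J : ℕ) {δ : ℝ} (hδ : 0 ≤ δ) {x y : X} (h : ∀ j ≤ J, |f j x - f j y| ≤ δ) :
    dd f x y ≤ δ + 2 * (1 / 2) ^ ((J + 2) ^ 4) := by
  unfold dd
  rw [← (summable_term h01 x y).sum_add_tsum_nat_add (J + 1)]
  refine add_le_add ?_ ?_
  · have h1 : ∑ j ∈ Finset.range (J + 1), wt j * |f j x - f j y| ≤
        ∑ j ∈ Finset.range (J + 1), wt j * δ := by
      refine Finset.sum_le_sum fun j hj => ?_
      exact mul_le_mul_of_nonneg_left (h j (Nat.lt_succ_iff.1 (Finset.mem_range.1 hj))) (wt_pos j).le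
    refine h1.trans ?_
    rw [← Finset.sum_mul]
    have h2 : ∑ j ∈ Finset.range (J + 1), wt j ≤ 1 :=
      (summable_wt.sum_le_tsum _ (fun j _ => (wt_pos j).le)).trans tsum_wt_le
    have h3 := mul_le_mul_of_nonneg_right h2 hδ
    rw [one_mul] at h3
    exact h3
  · refine le_trans ?_ (tsum_tail_le J)
    refine ((summable_nat_add_iff (J + 1)).2 (summable_term h01 x y)).tsum_le_tsum (fun j => ?_)
      ((summable_nat_add_iff (J + 1)).2 summable_wt)
    exact term_le h01 _ x y

variable [TopologicalSpace X] (hc : ∀ j, Continuous (f j))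

include hc in
theorem continuous_dd : Continuous fun p : X × X => dd f p.1 p.2 := by
  unfold dd
  refine continuous_tsum (fun j => ?_) summable_wt (fun j p => ?_)
  · exact continuous_const.mul (((hc j).comp continuous_fst).sub ((hc j).comp continuous_snd)).abs
  · rw [Real.norm_eq_abs, abs_of_nonneg (term_nonneg j _ _)]
    exact term_le h01 j _ _

/-- the compatible metric -/
noncomputable def ddMetric [CompactSpace X] (hsep : ∀ x y, x ≠ y → ∃ j, f j x ≠ f j y) :
    CompatMetric X where
  d := dd f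
  d_self x := by unfold dd; simp
  eq_of_d x y h := by
    by_contra hxy
    exact (dd_pos h01 hsep hxy).ne' h
  d_comm x y := by
    unfold dd
    exact tsum_congr fun j => by rw [abs_sub_comm]
  triangle x y z := dd_triangle h01 x y z
  isOpen_iff s := by
    constructor
    · intro hs x hx
      have hcx : Continuous fun y => dd f x y :=
        (continuous_dd h01 hc).comp (continuous_const.prodMk continuous_id)
      rcases sᶜ.eq_empty_or_nonempty with he | hne
      · refine ⟨1, one_pos, fun y _ => ?_⟩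
        by_contra hy
        exact (Set.mem_empty_iff_false y).1 (he ▸ hy)
      · obtain ⟨z, hz, hmin⟩ := hs.isClosed_compl.isCompact.exists_isMinOn hne hcx.continuousOn
        have hxz : x ≠ z := by
          rintro rfl
          exact hz hx
        refine ⟨dd f x z, dd_pos h01 hsep hxz, fun y hy => ?_⟩
        by_contra hys
        exact absurd (hmin (show y ∈ sᶜ from hys)) (not_le.2 hy)
    · intro h
      rw [isOpen_iff_mem_nhds]
      intro x hx
      obtain ⟨r, hr, h1⟩ := h x hx
      have hcx : Continuous fun y => dd f x y :=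
        (continuous_dd h01 hc).comp (continuous_const.prodMk continuous_id)
      have h2 : IsOpen {y | dd f x y < r} := isOpen_lt hcx continuous_const
      have h3 : dd f x x = 0 := by unfold dd; simp
      exact Filter.mem_of_superset (h2.mem_nhds (show dd f x x < r by rw [h3]; exact hr))
        (fun y hy => h1 y hy)

end

end H3.MD
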