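import Pool.Agent.Lib_helper3.MD.Defs
import Pool.Agent.Lib_helper3.MD.GenPos

/-!
# The perturbation lemma
-/

set_option autoImplicit false

open Topology

namespace H3.MD

open scoped BoundedContinuousFunction

variable {X : Type*} [MetricSpace X] [CompactSpace X]

/-- Perturbation lemma: a small perturbation of `u` misses the point `c`. -/
theorem perturb {n : ℕ} (hdim : DimLE X n) (τ : ℕ → X ≃ₜ X) (S : Finset (ℕ × ℕ))
    (hS : S.card = n + 1) {A O : Set X} (hA : IsClosed A) (hO : IsOpen O) (hAO : A ⊆ O)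
    (hdisj : ∀ s ∈ S, ∀ s' ∈ S, s.2 ≠ s'.2 → ∀ x ∈ O, ∀ y ∈ O, τ s.2 x ≠ τ s'.2 y)
    (c : ℕ × ℕ → ℝ) (u : (ℕ × X) →ᵇ ℝ) {η : ℝ} (hη : 0 < η) :
    ∃ u' : (ℕ × X) →ᵇ ℝ, dist u' u ≤ η ∧ ∀ x ∈ A, ∃ s ∈ S, u' (s.1, τ s.2 x) ≠ c s := by
  classical
  -- the functions of one variable
  set f : ℕ × ℕ → X → ℝ := fun s x => u (s.1, τ s.2 x) with hf
  have hfc : ∀ s, Continuous (f s) := fun s =>
    u.continuous.comp (continuous_const.prodMk (τ s.2).continuous)
  -- a small open neighbourhood of each point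
  have hV : ∀ x : X, ∃ V : Set X, IsOpen V ∧ x ∈ V ∧ ((V ∩ A).Nonempty → V ⊆ O) ∧
      ∀ s ∈ S, ∀ y ∈ V, |f s y - f s x| < η / 8 := by
    intro x
    set V2 : Set X := ⋂ s ∈ S, {y | |f s y - f s x| < η / 8} with hV2
    have hV2o : IsOpen V2 := by
      refine isOpen_biInter_finset fun s _ => ?_
      exact isOpen_lt (((hfc s).sub continuous_const).abs) continuous_const
    have hV2x : x ∈ V2 := by
      simp only [hV2, Set.mem_iInter, Set.mem_ofPred_eq, sub_self, abs_zero]
      intro _ _; positivity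
    by_cases hx : x ∈ O
    · refine ⟨O ∩ V2, hO.inter hV2o, ⟨hx, hV2x⟩, fun _ => Set.inter_subset_left, ?_⟩
      intro s hs y hy
      have := hy.2
      simp only [hV2, Set.mem_iInter, Set.mem_ofPred_eq] at this
      exact this s hs
    · refine ⟨Aᶜ ∩ V2, hA.isOpen_compl.inter hV2o, ⟨fun h => hx (hAO h), hV2x⟩, ?_, ?_⟩
      · rintro ⟨y, hy1, hy2⟩
        exact absurd hy2 hy1.1
      · intro s hs y hy
        have := hy.2
        simp only [hV2, Set.mem_iInter, Set.mem_ofPred_eq] at this
        exact this s hs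
  choose V hVo hVx hVA hVosc using hV
  obtain ⟨t, ht⟩ := isCompact_univ.elim_finite_subcover V hVo
    (fun x _ => Set.mem_iUnion.2 ⟨x, hVx x⟩)
  obtain ⟨β, hβ, hβα, hβn⟩ := hdim (V '' (t : Set X)) (by
    refine ⟨t.finite_toSet.image _, ?_, ?_⟩
    · rintro _ ⟨x, _, rfl⟩; exact hVo x
    · rw [Set.sUnion_image]
      exact Set.univ_subset_iff.1 (by simpa using ht))
  have : Fintype β := hβ.1.fintype
  -- partition of unity
  obtain ⟨ψ, hψ⟩ := PartitionOfUnity.exists_isSubordinate (s := (Set.univ : Set X)) isClosed_univ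
    (fun W : β => (W : Set X)) (fun W => hβ.2.1 _ W.2) (by
      rw [← Set.sUnion_eq_iUnion, hβ.2.2])
  have hψW : ∀ (W : β) (x : X), ψ W x ≠ 0 → x ∈ (W : Set X) := by
    intro W x hx
    exact hψ W (subset_tsupport _ hx)
  have hψ0 : ∀ (W : β) (x : X), 0 ≤ ψ W x := fun W x => ψ.nonneg W x
  have hψ1 : ∀ x : X, ∑ W : β, ψ W x = 1 := by
    intro x
    rw [← finsum_eq_sum_of_fintype]
    exact ψ.sum_eq_one (Set.mem_univ x)
  -- properties of the members of the cover
  have hβO : ∀ W : β, ((W : Set X) ∩ A).Nonempty → (W : Set X) ⊆ O := by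
    intro W hW
    obtain ⟨_, ⟨x, _, rfl⟩, hWV⟩ := hβα W W.2
    exact hWV.trans (hVA x (hW.mono (Set.inter_subset_inter_left _ hWV)))
  have hβosc : ∀ W : β, ∀ s ∈ S, ∀ y ∈ (W : Set X), ∀ z ∈ (W : Set X), |f s y - f s z| < η / 4 := by
    intro W s hs y hy z hz
    obtain ⟨_, ⟨x, _, rfl⟩, hWV⟩ := hβα W W.2
    have h1 := hVosc x s hs y (hWV hy)
    have h2 := hVosc x s hs z (hWV hz)
    rw [abs_lt] at *
    constructor <;> linarith [h1.1, h1.2, h2.1, h2.2]
  -- base values
  set b : β → S → ℝ := fun W s => if h : ((W : Set X) ∩ A).Nonempty then f s h.choose else 0 with hb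
  obtain ⟨p, hp, hgen⟩ := genpos (S := S) (ι := β) (fun s => c s) (fun W s => b W s - η / 4)
    (fun W s => b W s + η / 4) (fun W s => by linarith)
  -- the set of relevant members
  set G : Finset β := Finset.univ.filter (fun W => ((W : Set X) ∩ A).Nonempty) with hG
  -- the perturbation
  set h : ℕ × X → ℝ := fun jy => ∑ s : S, if (s : ℕ × ℕ).1 = jy.1 then
      ∑ W ∈ G, ψ W ((τ (s : ℕ × ℕ).2).symm jy.2) * (p W s - u jy) else 0 with hh
  have hhc : Continuous h := by
    refine continuous_prod_of_discrete_left.2 fun j => ?_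
    simp only [hh]
    refine continuous_finsetSum _ fun s _ => ?_
    by_cases hj : (s : ℕ × ℕ).1 = j
    · simp only [hj, if_true]
      refine continuous_finsetSum _ fun W _ => ?_
      exact ((ψ W).continuous.comp (τ (s : ℕ × ℕ).2).symm.continuous).mul
        (continuous_const.sub (u.continuous.comp (continuous_const.prodMk continuous_id)))
    · simp only [hj, if_false]; exact continuous_const
  -- at most one `s` is active at each point
  have hact : ∀ (j : ℕ) (y : X) (s s' : S), (s : ℕ × ℕ).1 = j → (s' : ℕ × ℕ).1 = j →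
      (τ (s : ℕ × ℕ).2).symm y ∈ O → (τ (s' : ℕ × ℕ).2).symm y ∈ O → s = s' := by
    intro j y s s' h1 h2 h3 h4
    by_contra hne
    have h5 : (s : ℕ × ℕ).2 ≠ (s' : ℕ × ℕ).2 := by
      intro h6
      exact hne (Subtype.ext (Prod.ext (h1.trans h2.symm) h6))
    refine hdisj s s.2 s' s'.2 h5 _ h3 _ h4 ?_
    rw [Homeomorph.apply_symm_apply, Homeomorph.apply_symm_apply]
  have hzero : ∀ (s : S) (z : X), z ∉ O → ∀ W ∈ G, ψ W z = 0 := by
    intro s z hz W hW
    by_contra hne
    exact hz (hβO W (Finset.mem_filter.1 hW).2 (hψW W z hne))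
  -- bound of the perturbation for one `s`
  have hone : ∀ (j : ℕ) (y : X) (s : S), (s : ℕ × ℕ).1 = j →
      |∑ W ∈ G, ψ W ((τ (s : ℕ × ℕ).2).symm y) * (p W s - u (j, y))| ≤ η := by
    intro j y s hj
    set z := (τ (s : ℕ × ℕ).2).symm y with hz
    have huz : u (j, y) = f s z := by
      simp only [hf, hz, Homeomorph.apply_symm_apply, hj]
    refine (Finset.abs_sum_le_sum_abs _ _).trans ?_
    have h1 : ∀ W ∈ G, |ψ W z * (p W s - u (j, y))| ≤ ψ W z * η := by
      intro W hW
      rw [abs_mul, abs_of_nonneg (hψ0 W z)]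
      by_cases hzW : ψ W z = 0
      · rw [hzW]; simp
      · refine mul_le_mul_of_nonneg_left ?_ (hψ0 W z)
        have h2 := hψW W z hzW
        have hne := (Finset.mem_filter.1 hW).2
        have h3 := hp W s
        have h4 : b W s = f s hne.choose := by simp only [hb, dif_pos hne]
        have h5 := hβosc W s s.2 _ h2 _ hne.choose_spec.1
        rw [huz]
        rw [abs_lt] at h5
        rw [h4] at h3
        rw [abs_le]
        constructor <;> linarith [h3.1, h3.2, h5.1, h5.2]
    refine (Finset.sum_le_sum h1).trans ?_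
    rw [← Finset.sum_mul]
    have h2 : ∑ W ∈ G, ψ W z ≤ 1 := by
      rw [← hψ1 z]
      exact Finset.sum_le_sum_of_subset_of_nonneg (Finset.subset_univ _) (fun W _ _ => hψ0 W z)
    nlinarith
  have hbound : ∀ jy : ℕ × X, |h jy| ≤ η := by
    rintro ⟨j, y⟩
    by_cases hex : ∃ s : S, (s : ℕ × ℕ).1 = j ∧ (τ (s : ℕ × ℕ).2).symm y ∈ O
    · obtain ⟨s, hs1, hs2⟩ := hex
      have h1 : h (j, y) = ∑ W ∈ G, ψ W ((τ (s : ℕ × ℕ).2).symm y) * (p W s - u (j, y)) := by
        simp only [hh]
        rw [Finset.sum_eq_single s]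
        · rw [if_pos hs1]
        · intro s' _ hs'
          by_cases hj : (s' : ℕ × ℕ).1 = j
          · rw [if_pos hj]
            refine Finset.sum_eq_zero fun W hW => ?_
            rw [hzero s' _ (fun hz => hs' (hact j y s' s hj hs1 hz hs2)) W hW, zero_mul]
          · rw [if_neg hj]
        · intro hs; exact absurd (Finset.mem_univ _) hs
      rw [h1]
      exact hone j y s hs1
    · have h1 : h (j, y) = 0 := by
        simp only [hh]
        refine Finset.sum_eq_zero fun s _ => ?_
        by_cases hj : (s : ℕ × ℕ).1 = j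
        · rw [if_pos hj]
          refine Finset.sum_eq_zero fun W hW => ?_
          rw [hzero s _ (fun hz => hex ⟨s, hj, hz⟩) W hW, zero_mul]
        · rw [if_neg hj]
      rw [h1, abs_zero]
      exact hη.le
  set hB : (ℕ × X) →ᵇ ℝ := BoundedContinuousFunction.ofNormedAddCommGroup h hhc η
    (fun jy => by rw [Real.norm_eq_abs]; exact hbound jy) with hhB
  refine ⟨u + hB, ?_, ?_⟩
  · rw [dist_eq_norm, add_sub_cancel_left]
    exact BoundedContinuousFunction.norm_ofNormedAddCommGroup_le hhc hη.le _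
  · intro x hx
    by_contra hcon
    push Not at hcon
    -- the value of the new function at the points of the orbit of `x`
    have hval : ∀ s : S, ∑ W : β, ψ W x * p W s = c s := by
      intro s
      have h1 := hcon s s.2
      have h2 : h ((s : ℕ × ℕ).1, τ (s : ℕ × ℕ).2 x) =
          ∑ W ∈ G, ψ W x * (p W s - f s x) := by
        simp only [hh]
        rw [Finset.sum_eq_single s]
        · rw [if_pos rfl]
          refine Finset.sum_congr rfl fun W _ => ?_
          rw [Homeomorph.symm_apply_apply]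
        · intro s' _ hs'
          by_cases hj : (s' : ℕ × ℕ).1 = (s : ℕ × ℕ).1
          · rw [if_pos hj]
            refine Finset.sum_eq_zero fun W hW => ?_
            rw [hzero s' _ (fun hz => hs' (hact (s : ℕ × ℕ).1 (τ (s : ℕ × ℕ).2 x) s' s hj rfl hz
              (by rw [Homeomorph.symm_apply_apply]; exact hAO hx))) W hW, zero_mul]
          · rw [if_neg hj]
        · intro hs; exact absurd (Finset.mem_univ _) hs
      have h3 : ∑ W ∈ G, ψ W x = 1 := by
        rw [← hψ1 x]
        refine Finset.sum_subset (Finset.subset_univ _) fun W _ hW => ?_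
        by_contra hne
        exact hW (Finset.mem_filter.2 ⟨Finset.mem_univ _, ⟨x, hψW W x hne, hx⟩⟩)
      have h4 : ∑ W ∈ G, ψ W x * (p W s - f s x) = ∑ W ∈ G, ψ W x * p W s - f s x := by
        simp only [mul_sub, Finset.sum_sub_distrib, ← Finset.sum_mul, h3, one_mul]
      have h5 : ∑ W ∈ G, ψ W x * p W s = ∑ W : β, ψ W x * p W s := by
        refine Finset.sum_subset (Finset.subset_univ _) fun W _ hW => ?_
        have : ψ W x = 0 := by
          by_contra hne
          exact hW (Finset.mem_filter.2 ⟨Finset.mem_univ _, ⟨x, hψW W x hne, hx⟩⟩)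
        rw [this, zero_mul]
      have h6 : (u + hB) ((s : ℕ × ℕ).1, τ (s : ℕ × ℕ).2 x) =
          f s x + h ((s : ℕ × ℕ).1, τ (s : ℕ × ℕ).2 x) := rfl
      rw [h6, h2, h4, h5] at h1
      linarith
    have hall := hgen (fun W => ψ W x) (by
      rw [Fintype.card_coe, hS]
      have h1 := ncard_le_of_ord hβ.1 hβn x
      have h2 : ((Finset.univ.filter (fun W : β => ψ W x ≠ 0)).image
          (fun W : β => (W : Set X))).card ≤ n + 1 := by
        rw [← Set.ncard_coe_finset]
        refine (Set.ncard_le_ncard ?_ (hβ.1.subset (fun U hU => hU.1))).trans h1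
        intro U hU
        simp only [Finset.coe_image, Finset.coe_filter, Finset.mem_univ, true_and, Set.mem_image,
          Set.mem_ofPred_eq] at hU
        obtain ⟨W, hW, rfl⟩ := hU
        exact ⟨W.2, hψW W x hW⟩
      rwa [Finset.card_image_of_injective _ Subtype.val_injective] at h2) (by
      intro s
      have h1 : ∑ W : β, ψ W x * (p W s - c s) = ∑ W : β, ψ W x * p W s - c s := by
        simp only [mul_sub, Finset.sum_sub_distrib, ← Finset.sum_mul, hψ1 x, one_mul]
      rw [h1, hval s, sub_self])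
    have h1 := hψ1 x
    simp only [hall, Finset.sum_const_zero] at h1
    exact zero_ne_one h1

end H3.MD
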