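import Pool.Agent.Lib_helper3.MD.Metric

/-!
# The static code
-/

set_option autoImplicit false

open Topology MeasureTheory

namespace H3.MD

/-- names of points -/
abbrev Nm (J R : ℕ) : Type := Fin (J + 1) → (Fin (2 ^ J + 1) ⊕ Fin (R + 1))

section

variable {X : Type*} (f : ℕ → X → ℝ) (bad : ℕ → ℕ → Set X) (J R : ℕ)

open scoped Classical in
/-- the name of a point -/
noncomputable def nm (x : X) : Nm J R := fun j =>
  if x ∈ bad J j then Sum.inr ⟨min R ⌊f j x * R⌋₊, Nat.lt_succ_of_le (min_le_left _ _)⟩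
  else Sum.inl ⟨min (2 ^ J) ⌊f j x * 2 ^ J⌋₊, Nat.lt_succ_of_le (min_le_left _ _)⟩

open scoped Classical in
/-- number of bad coordinates -/
noncomputable def cnt (x : X) : ℕ := ((Finset.range (J + 1)).filter fun j => x ∈ bad J j).card

theorem cnt_le (x : X) : cnt bad J x ≤ J + 1 := by
  classical
  unfold cnt
  refine (Finset.card_filter_le _ _).trans ?_
  rw [Finset.card_range]

variable {f bad}

theorem abs_floor_sub {a b : ℝ} (ha : 0 ≤ a) (hb : 0 ≤ b) (h : ⌊a⌋₊ = ⌊b⌋₊) : |a - b| ≤ 1 := by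
  have h1 := Nat.floor_le ha
  have h2 := Nat.lt_floor_add_one a
  have h3 := Nat.floor_le hb
  have h4 := Nat.lt_floor_add_one b
  rw [h] at h1 h2
  rw [abs_le]
  constructor <;> linarith

theorem nm_close (h01 : ∀ j x, 0 ≤ f j x ∧ f j x ≤ 1)
    (hk : ∀ J j x, x ∉ bad J j → ∃ k : ℕ, k ≤ 2 ^ J ∧ f j x = k / 2 ^ J) (hR : 0 < R) {x y : X}
    (h : nm f bad J R x = nm f bad J R y) : ∀ j ≤ J, |f j x - f j y| ≤ 1 / R := by
  classical
  intro j hj
  have h1 := congrFun h ⟨j, Nat.lt_succ_of_le hj⟩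
  have hR' : (0 : ℝ) < R := by exact_mod_cast hR
  unfold nm at h1
  simp only at h1
  by_cases hx : x ∈ bad J j <;> by_cases hy : y ∈ bad J j
  · rw [if_pos hx, if_pos hy] at h1
    have h2 := Sum.inr_injective h1
    simp only [Fin.mk.injEq] at h2
    have hfl : ∀ z, ⌊f j z * R⌋₊ ≤ R := fun z => by
      have h3 : f j z * R ≤ R := by
        have := mul_le_mul_of_nonneg_right (h01 j z).2 hR'.le
        rwa [one_mul] at this
      exact Nat.floor_le_of_le h3
    rw [min_eq_right (hfl x), min_eq_right (hfl y)] at h2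
    have h4 := abs_floor_sub (mul_nonneg (h01 j x).1 hR'.le) (mul_nonneg (h01 j y).1 hR'.le) h2
    rw [← sub_mul, abs_mul, abs_of_pos hR'] at h4
    rw [le_div_iff₀ hR']
    exact h4
  · rw [if_pos hx, if_neg hy] at h1
    exact absurd h1 (by simp)
  · rw [if_neg hx, if_pos hy] at h1
    exact absurd h1 (by simp)
  · rw [if_neg hx, if_neg hy] at h1
    have h2 := Sum.inl_injective h1
    simp only [Fin.mk.injEq] at h2
    obtain ⟨k, hk1, hk2⟩ := hk J j x hx
    obtain ⟨l, hl1, hl2⟩ := hk J j y hy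
    have h3 : (0 : ℝ) < 2 ^ J := by positivity
    have h4 : f j x * 2 ^ J = k := by rw [hk2]; field_simp
    have h5 : f j y * 2 ^ J = l := by rw [hl2]; field_simp
    rw [h4, h5, Nat.floor_natCast, Nat.floor_natCast, min_eq_right hk1, min_eq_right hl1] at h2
    rw [hk2, hl2, h2, sub_self, abs_zero]
    positivity

/-- one-coordinate weights -/
noncomputable def w1 (J R : ℕ) : (Fin (2 ^ J + 1) ⊕ Fin (R + 1)) → ℝ :=
  Sum.elim (fun _ => 1 / (2 * (2 ^ J + 1))) (fun _ => 1 / (2 * (R + 1)))

theorem w1_pos (y : Fin (2 ^ J + 1) ⊕ Fin (R + 1)) : 0 < w1 J R y := by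
  rcases y with y | y
  · show (0 : ℝ) < 1 / (2 * (2 ^ J + 1)); positivity
  · show (0 : ℝ) < 1 / (2 * (R + 1)); positivity

theorem sum_w1 : ∑ y, w1 J R y = 1 := by
  rw [Fintype.sum_sum_type]
  simp only [w1, Sum.elim_inl, Sum.elim_inr, Finset.sum_const, Finset.card_univ, Fintype.card_fin,
    nsmul_eq_mul]
  push_cast
  have h1 : ((2 : ℝ) ^ J + 1) ≠ 0 := by positivity
  have h2 : ((R : ℝ) + 1) ≠ 0 := by positivity
  field_simp
  norm_num

/-- weights of the names -/
noncomputable def wC (J R : ℕ) (c : Nm J R) : ℝ := ∏ j, w1 J R (c j)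

theorem wC_pos (c : Nm J R) : 0 < wC J R c := Finset.prod_pos fun j _ => w1_pos J R _

theorem sum_wC : ∑ c, wC J R c = 1 := by
  unfold wC
  rw [← Fintype.prod_sum]
  simp only [sum_w1, Finset.prod_const_one]

theorem cost_le (x : X) : -Real.log (wC J R (nm f bad J R x)) ≤
    (J + 1) * Real.log (2 * (2 ^ J + 1)) + cnt bad J x * Real.log (2 * (R + 1)) := by
  classical
  unfold wC
  rw [Real.log_prod (fun _ _ => (w1_pos J R _).ne'), ← Finset.sum_neg_distrib]
  have h1 : ∀ j : Fin (J + 1), -Real.log (w1 J R (nm f bad J R x j)) ≤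
      Real.log (2 * (2 ^ J + 1)) + (if x ∈ bad J j then Real.log (2 * (R + 1)) else 0) := by
    intro j
    have hl1 : 0 ≤ Real.log (2 * (2 ^ J + 1)) := by
      apply Real.log_nonneg
      have : (0 : ℝ) < 2 ^ J := by positivity
      linarith
    by_cases hx : x ∈ bad J j
    · have h2 : nm f bad J R x j = Sum.inr ⟨min R ⌊f j x * R⌋₊,
        Nat.lt_succ_of_le (min_le_left _ _)⟩ := by unfold nm; rw [if_pos hx]
      rw [h2, if_pos hx]
      show -Real.log (1 / (2 * (R + 1))) ≤ _
      rw [one_div, Real.log_inv, neg_neg]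
      linarith
    · have h2 : nm f bad J R x j = Sum.inl ⟨min (2 ^ J) ⌊f j x * 2 ^ J⌋₊,
        Nat.lt_succ_of_le (min_le_left _ _)⟩ := by unfold nm; rw [if_neg hx]
      rw [h2, if_neg hx]
      show -Real.log (1 / (2 * (2 ^ J + 1))) ≤ _
      rw [one_div, Real.log_inv, neg_neg]
      linarith
  refine (Finset.sum_le_sum fun j _ => h1 j).trans ?_
  rw [Finset.sum_add_distrib]
  refine add_le_add ?_ ?_
  · rw [Finset.sum_const, Finset.card_univ, Fintype.card_fin, nsmul_eq_mul]
    push_cast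
    exact le_rfl
  · rw [Fin.sum_univ_eq_sum_range (fun j => if x ∈ bad J j then Real.log (2 * ((R : ℝ) + 1)) else 0)
      (J + 1), ← Finset.sum_filter, Finset.sum_const, nsmul_eq_mul]
    exact le_rfl

theorem measurableSet_nm [TopologicalSpace X] [MeasurableSpace X] [BorelSpace X]
    (hc : ∀ j, Continuous (f j)) (hb : ∀ J j, IsClosed (bad J j)) (c : Nm J R) :
    MeasurableSet {x | nm f bad J R x = c} := by
  classical
  have h1 : {x | nm f bad J R x = c} = ⋂ j, {x | nm f bad J R x j = c j} := by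
    ext x
    simp only [Set.mem_iInter]
    exact funext_iff
  rw [h1]
  refine MeasurableSet.iInter fun j => ?_
  have hm : ∀ a : ℝ, Measurable fun x : X => ⌊f j x * a⌋₊ := fun a =>
    Nat.measurable_floor.comp ((hc j).measurable.mul_const a)
  have hbm : MeasurableSet (bad J j) := (hb J j).measurableSet
  rcases hcj : c j with y | y
  · have h2 : {x | nm f bad J R x j = Sum.inl y} =
        (bad J j)ᶜ ∩ (fun x => min (2 ^ J) ⌊f j x * 2 ^ J⌋₊) ⁻¹' {(y : ℕ)} := by
      ext x
      unfold nm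
      by_cases hx : x ∈ bad J j
      · simp [hx]
      · simp [hx, Fin.ext_iff]
    rw [h2]
    exact hbm.compl.inter ((measurable_const.min (hm _)) (measurableSet_singleton _))
  · have h2 : {x | nm f bad J R x j = Sum.inr y} =
        (bad J j) ∩ (fun x => min R ⌊f j x * R⌋₊) ⁻¹' {(y : ℕ)} := by
      ext x
      unfold nm
      by_cases hx : x ∈ bad J j
      · simp [hx, Fin.ext_iff]
      · simp [hx]
    rw [h2]
    exact hbm.inter ((measurable_const.min (hm _)) (measurableSet_singleton _))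

theorem measurable_cnt [TopologicalSpace X] [MeasurableSpace X] [BorelSpace X]
    (hb : ∀ J j, IsClosed (bad J j)) : Measurable fun x => (cnt bad J x : ℝ) := by
  classical
  have h1 : (fun x => (cnt bad J x : ℝ)) = fun x => ∑ j ∈ Finset.range (J + 1),
      (bad J j).indicator (fun _ => (1 : ℝ)) x := by
    funext x
    unfold cnt
    rw [Finset.card_filter]
    push_cast
    exact Finset.sum_congr rfl fun j _ => by simp [Set.indicator_apply]
  rw [h1]
  exact Finset.measurable_sum _ fun j _ => measurable_const.indicator (hb J j).measurableSet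

end

end H3.MD
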